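import Mathlib
import Pool.Agent.Q262.AB.Fib
import Pool.Agent.H388SL.DobA

/-!
# Relative conjugates
-/

set_option autoImplicit false
set_option linter.unusedSectionVars false
set_option linter.style.haveILetI false

open Finset Polynomial Module NumberField

namespace Pool.Agent.Q191.MV

open Pool.Agent.Q262.AB (fib mem_fib card_fib)
open Pool.Agent.H388SL (lam lam_pos lam_pow CInj_gen minpoly_map_eq sum_embeddings' lam_nonneg
  one_le_prod_norm)

variable {F K : Type} [Field F] [NumberField F] [Field K] [NumberField K] [Algebra F K]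

/-- the embedding of the ring of integers -/
noncomputable def embO (v : F →ₐ[ℚ] ℂ) : 𝓞 F →+* ℂ := (v : F →+* ℂ).comp (algebraMap (𝓞 F) F)

theorem embO_apply (v : F →ₐ[ℚ] ℂ) (x : 𝓞 F) : embO v x = v (x : F) := rfl

/-- the relative minimal polynomial -/
theorem minpoly_fib {γ : K} (v : F →ₐ[ℚ] ℂ)
    (hγ : Set.InjOn (fun σ : K →ₐ[ℚ] ℂ => σ γ) (fib (L := K) v)) :
    (minpoly F γ).map (v : F →+* ℂ) = ∏ σ ∈ fib (L := K) v, (X - C (σ γ)) := by
  classical
  letI : Algebra F ℂ := v.toRingHom.toAlgebra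
  haveI : IsScalarTower ℚ F ℂ := IsScalarTower.of_algebraMap_eq fun q => (v.commutes q).symm
  haveI : FiniteDimensional F K := FiniteDimensional.right ℚ F K
  have hv : (v : F →+* ℂ) = algebraMap F ℂ := rfl
  rw [hv]
  have hs : ((minpoly F γ).map (algebraMap F ℂ)).Splits := IsAlgClosed.splits _
  have hm : ((minpoly F γ).map (algebraMap F ℂ)).Monic :=
    (minpoly.monic (Algebra.IsIntegral.isIntegral γ)).map _
  have hnd : ((minpoly F γ).map (algebraMap F ℂ)).roots.Nodup :=
    nodup_roots (show (minpoly F γ).Separable from Algebra.IsSeparable.isSeparable F γ).map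
  have h1 := hs.eq_prod_roots_of_monic hm
  have h2 : ((minpoly F γ).map (algebraMap F ℂ)).roots =
      (fib (L := K) v).val.map (fun σ => σ γ) := by
    rw [Multiset.Nodup.ext hnd]
    · intro z
      have h3 := Algebra.IsAlgebraic.range_eval_eq_rootSet_minpoly (F := F) (K := K) ℂ γ
      have h4 : z ∈ (minpoly F γ).rootSet ℂ ↔ z ∈ ((minpoly F γ).map (algebraMap F ℂ)).roots := by
        rw [Polynomial.rootSet_def, Finset.mem_coe, Multiset.mem_toFinset]
      rw [← h4, ← h3, Multiset.mem_map]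
      constructor
      · rintro ⟨ψ, rfl⟩
        refine ⟨ψ.restrictScalars ℚ, ?_, rfl⟩
        rw [Finset.mem_val, mem_fib]
        exact fun a => ψ.commutes a
      · rintro ⟨σ, hσ, rfl⟩
        rw [Finset.mem_val, mem_fib] at hσ
        exact ⟨({ σ.toRingHom with commutes' := hσ } : K →ₐ[F] ℂ), rfl⟩
    · exact Multiset.Nodup.map_on (fun x hx y hy h => hγ hx hy h) (fib (L := K) v).nodup
  rw [h1, h2, Multiset.map_map]
  rfl

/-- the relative minimal polynomial over the integers -/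
theorem minpolyO_map (γ : 𝓞 K) :
    (minpoly (𝓞 F) (γ : K)).map (algebraMap (𝓞 F) F) = minpoly F (γ : K) := by
  have h : IsIntegral (𝓞 F) (γ : K) := γ.isIntegral_coe.tower_top
  exact (minpoly.isIntegrallyClosed_eq_field_fractions' F h).symm

theorem minpolyO_fib {γ : 𝓞 K} (v : F →ₐ[ℚ] ℂ)
    (hγ : Set.InjOn (fun σ : K →ₐ[ℚ] ℂ => σ (γ : K)) (fib (L := K) v)) :
    (minpoly (𝓞 F) (γ : K)).map (embO v) = ∏ σ ∈ fib (L := K) v, (X - C (σ (γ : K))) := by
  rw [← minpoly_fib v hγ, ← minpolyO_map (F := F) γ, Polynomial.map_map]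
  rfl

/-- equal conjugates have equal heights -/
theorem lam_eq_of_conj {β γ : K} (σ τ : K →ₐ[ℚ] ℂ) (h : σ β = τ γ) : lam β = lam γ := by
  classical
  have hmin : minpoly ℚ β = minpoly ℚ γ := by
    rw [← minpoly.algHom_eq σ σ.injective β, ← minpoly.algHom_eq τ τ.injective γ, h]
  have key : ∀ δ : K, lam δ * (minpoly ℚ δ).natDegree = finrank ℚ K *
      ((((minpoly ℚ δ).map (algebraMap ℚ ℂ)).roots.map fun z => Real.log (max 1 ‖z‖)).sum) := by
    intro δ
    have h1 : lam δ = (finrank (IntermediateField.adjoin ℚ {δ}) K) •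
        ∑ σ : (IntermediateField.adjoin ℚ {δ}) →ₐ[ℚ] ℂ,
          Real.log (max 1 ‖σ (IntermediateField.AdjoinSimple.gen ℚ δ)‖) :=
      sum_embeddings' δ fun z => Real.log (max 1 ‖z‖)
    have h2 : (((minpoly ℚ δ).map (algebraMap ℚ ℂ)).roots.map
        fun z => Real.log (max 1 ‖z‖)).sum =
        ∑ σ : (IntermediateField.adjoin ℚ {δ}) →ₐ[ℚ] ℂ,
          Real.log (max 1 ‖σ (IntermediateField.AdjoinSimple.gen ℚ δ)‖) := by
      have e0 : (minpoly ℚ δ).map (algebraMap ℚ ℂ) =
          ∏ τ : (IntermediateField.adjoin ℚ {δ}) →ₐ[ℚ] ℂ,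
            (X - C (τ (IntermediateField.AdjoinSimple.gen ℚ δ))) := by
        have e1 := minpoly_map_eq (CInj_gen δ)
        rw [← IntermediateField.minpoly_gen ℚ δ]
        convert e1
        · rfl
        · exact Subsingleton.elim _ _
      rw [e0, Finset.prod_eq_multiset_prod]
      have e : (Multiset.map (fun τ : (IntermediateField.adjoin ℚ {δ}) →ₐ[ℚ] ℂ =>
          X - C (τ (IntermediateField.AdjoinSimple.gen ℚ δ))) Finset.univ.val) =
          Multiset.map (fun a : ℂ => X - C a) (Multiset.map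
            (fun τ : (IntermediateField.adjoin ℚ {δ}) →ₐ[ℚ] ℂ =>
              τ (IntermediateField.AdjoinSimple.gen ℚ δ)) Finset.univ.val) := by
        rw [Multiset.map_map]; rfl
      rw [e, Polynomial.roots_multiset_prod_X_sub_C, Multiset.map_map]
      rfl
    have h3 : (minpoly ℚ δ).natDegree = finrank ℚ (IntermediateField.adjoin ℚ {δ}) :=
      (IntermediateField.adjoin.finrank (Algebra.IsIntegral.isIntegral δ)).symm
    have h4 : finrank ℚ (IntermediateField.adjoin ℚ {δ}) *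
        finrank (IntermediateField.adjoin ℚ {δ}) K = finrank ℚ K :=
      Module.finrank_mul_finrank ℚ _ K
    rw [h1, h2, h3, ← h4, nsmul_eq_mul]
    push_cast
    ring
  have h1 := key β
  have h2 := key γ
  rw [← hmin, ← h1] at h2
  have h3 : ((minpoly ℚ β).natDegree : ℝ) ≠ 0 := by
    have := minpoly.natDegree_pos (Algebra.IsIntegral.isIntegral (R := ℚ) β)
    positivity
  exact (mul_right_cancel₀ h3 h2).symm

/-- different powers have no common conjugates -/
theorem conj_ne {α : K} (hα : IsIntegral ℤ α) (h0 : α ≠ 0) (hroot : ∀ n : ℕ, 0 < n → α ^ n ≠ 1)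
    {p q : ℕ} (hpq : p ≠ q) (σ τ : K →ₐ[ℚ] ℂ) : σ (α ^ p) ≠ τ (α ^ q) := by
  intro h
  have h3 := lam_eq_of_conj σ τ h
  rw [lam_pow, lam_pow] at h3
  have h4 := lam_pos hα h0 hroot
  have h5 : (p : ℝ) = q := mul_right_cancel₀ h4.ne' h3
  exact hpq (by exact_mod_cast h5)

/-- sums over the embeddings of the larger field -/
theorem sum_fib {M : Type*} [AddCommMonoid M] (f : (K →ₐ[ℚ] ℂ) → M) :
    ∑ v : F →ₐ[ℚ] ℂ, ∑ σ ∈ fib (L := K) v, f σ = ∑ σ : K →ₐ[ℚ] ℂ, f σ := by
  classical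
  rw [← Finset.sum_fiberwise (s := (univ : Finset (K →ₐ[ℚ] ℂ)))
    (g := fun σ : K →ₐ[ℚ] ℂ => σ.comp (IsScalarTower.toAlgHom ℚ F K)) (f := f)]
  refine sum_congr rfl fun v _ => sum_congr ?_ fun _ _ => rfl
  ext σ
  rw [mem_fib, mem_filter]
  constructor
  · intro h
    exact ⟨mem_univ _, AlgHom.ext fun a => h a⟩
  · rintro ⟨-, rfl⟩ a
    rfl

section vt

/-- the composition of an embedding with the iterates of an automorphism -/
noncomputable def vt (v : F →ₐ[ℚ] ℂ) (τ : F ≃+* F) : ℕ → (F →ₐ[ℚ] ℂ)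
  | 0 => v
  | k + 1 => (vt v τ k).comp (τ : F →+* F).toRatAlgHom

theorem vt_inj (τ : F ≃+* F) (k : ℕ) : Function.Injective fun v : F →ₐ[ℚ] ℂ => vt v τ k := by
  induction k with
  | zero => exact fun v w h => h
  | succ k ih =>
    intro v w h
    apply ih
    apply AlgHom.ext
    intro a
    have h1 := congrArg (fun g : F →ₐ[ℚ] ℂ => g (τ.symm a)) h
    have e : ∀ u : F →ₐ[ℚ] ℂ, vt u τ (k + 1) (τ.symm a) = vt u τ k a := by
      intro u
      have : vt u τ (k + 1) (τ.symm a) = vt u τ k (τ (τ.symm a)) := rfl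
      rw [this, RingEquiv.apply_symm_apply]
    simp only [e] at h1
    exact h1

theorem sum_vt {M : Type*} [AddCommMonoid M] (τ : F ≃+* F) (k : ℕ) (f : (F →ₐ[ℚ] ℂ) → M) :
    ∑ v : F →ₐ[ℚ] ℂ, f (vt v τ k) = ∑ v : F →ₐ[ℚ] ℂ, f v :=
  Function.Bijective.sum_comp (Finite.injective_iff_bijective.1 (vt_inj τ k)) f

theorem vt_add (v : F →ₐ[ℚ] ℂ) (τ : F ≃+* F) (m k : ℕ) : vt (vt v τ m) τ k = vt v τ (m + k) := by
  induction k with
  | zero => rfl
  | succ k ih =>
    show (vt (vt v τ m) τ k).comp _ = (vt v τ (m + k)).comp _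
    rw [ih]

theorem embO_vt (v : F →ₐ[ℚ] ℂ) (τ : F ≃+* F) (k : ℕ) :
    embO (vt v τ k) = (embO v).comp ((RingOfIntegers.mapRingHom (τ : F →+* F)) ^ k) := by
  induction k with
  | zero => rfl
  | succ k ih =>
    have h1 : embO (vt v τ (k + 1)) =
        (embO (vt v τ k)).comp (RingOfIntegers.mapRingHom (τ : F →+* F)) := rfl
    rw [h1, ih, pow_succ, RingHom.comp_assoc]
    rfl

end vt

end Pool.Agent.Q191.MV
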