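import Mathlib
import Pool.Agent.Q262.AB.Witt
import Pool.Agent.Q191.ML.Ide
import Pool.Agent.Q191.MV.Rel

/-!
# The coefficients of the relative minimal polynomials of powers
-/

set_option autoImplicit false
set_option linter.unusedSectionVars false
set_option linter.style.haveILetI false

open Finset Polynomial Module NumberField

namespace Pool.Agent.Q191.MV

open Pool.Agent.Q262.AB (fib mem_fib card_fib exists_coord)
open Pool.Agent.Q191.ML (pow_sub_pow_mem')

section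

variable {R : Type*} [CommRing R]

/-- the congruence between the ghost components -/
theorem ghost_mem (P : Ideal R) {p : ℕ} (hp : (p : R) ∈ P) (L : ℕ) (c : ℕ → R) (τ : R →+* R)
    (hL : ∀ x : R, x ^ p ^ L - τ x ∈ P) (l : ℕ) :
    (∑ j ∈ range (l + L + 1), (p : R) ^ j * c j ^ p ^ (l + L - j)) -
      τ (∑ j ∈ range (l + 1), (p : R) ^ j * c j ^ p ^ (l - j)) ∈ P ^ (l + 1) := by
  have hpj : ∀ j, (p : R) ^ j ∈ P ^ j := fun j => Ideal.pow_mem_pow hp j
  have e1 : range (l + L + 1) = range (l + 1 + L) := by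
    congr 1
    omega
  rw [e1, sum_range_add, add_sub_right_comm, map_sum, ← sum_sub_distrib]
  refine Ideal.add_mem _ (Ideal.sum_mem _ fun j hj => ?_) (Ideal.sum_mem _ fun j hj => ?_)
  · rw [mem_range] at hj
    rw [map_mul, map_pow, map_natCast, map_pow, ← mul_sub]
    have h1 : l + L - j = L + (l - j) := by omega
    have h2 : l + 1 = j + (l - j + 1) := by omega
    rw [h1, pow_add p L, pow_mul, h2, pow_add P]
    exact Ideal.mul_mem_mul (hpj j) (pow_sub_pow_mem' P hp (hL (c j)) (l - j))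
  · rw [pow_add (p : R), mul_assoc]
    exact Ideal.mul_mem_right _ _ (hpj (l + 1))

end

variable {F K : Type} [Field F] [NumberField F] [Field K] [NumberField K] [Algebra F K]

/-- the relative conjugates of all powers are distinct -/
def Gen (F : Type) [Field F] [NumberField F] [Algebra F K] (β : 𝓞 K) : Prop :=
  ∀ m : ℕ, 0 < m → ∀ v : F →ₐ[ℚ] ℂ,
    Set.InjOn (fun σ : K →ₐ[ℚ] ℂ => σ ((β ^ m : 𝓞 K) : K)) (fib (L := K) v)

/-- the relative minimal polynomial of a power -/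
noncomputable def gm (F : Type) [Field F] [NumberField F] [Algebra F K] (β : 𝓞 K) (m : ℕ) :
    (𝓞 F)[X] := minpoly (𝓞 F) ((β ^ m : 𝓞 K) : K)

theorem gm_map {β : 𝓞 K} (hβ : Gen F β) {m : ℕ} (hm : 0 < m) (v : F →ₐ[ℚ] ℂ) :
    (gm F β m).map (embO v) = ∏ σ ∈ fib (L := K) v, (X - C (σ ((β ^ m : 𝓞 K) : K))) :=
  minpolyO_fib v (hβ m hm v)

theorem embO_inj (v : F →ₐ[ℚ] ℂ) : Function.Injective (embO v) := by
  intro x y h
  exact RingOfIntegers.ext (v.injective h)

theorem gm_monic (β : 𝓞 K) (m : ℕ) : (gm F β m).Monic := by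
  have h : IsIntegral (𝓞 F) ((β ^ m : 𝓞 K) : K) := (β ^ m).isIntegral_coe.tower_top
  exact minpoly.monic h

theorem gm_natDegree {β : 𝓞 K} (hβ : Gen F β) {m : ℕ} (hm : 0 < m) :
    (gm F β m).natDegree = finrank F K := by
  obtain ⟨σ⟩ : Nonempty (F →+* ℂ) := inferInstance
  rw [← natDegree_map_eq_of_injective (embO_inj σ.toRatAlgHom) (gm F β m), gm_map hβ hm,
    natDegree_prod_of_monic _ _ fun _ _ => monic_X_sub_C _]
  simp only [natDegree_X_sub_C]
  rw [sum_const, smul_eq_mul, mul_one, card_fib]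

/-- the coefficients of the minimal polynomial -/
theorem gm_coeff {β : 𝓞 K} (hβ : Gen F β) {m : ℕ} (hm : 0 < m) (v : F →ₐ[ℚ] ℂ) {i : ℕ}
    (hi : i ≤ finrank F K) :
    embO v ((-1) ^ (finrank F K - i) * (gm F β m).coeff i) =
      ∑ t ∈ powersetCard (finrank F K - i) (fib (L := K) v), (∏ σ ∈ t, σ (β : K)) ^ m := by
  have h1 : embO v ((gm F β m).coeff i) =
      (-1) ^ (finrank F K - i) * ∑ t ∈ powersetCard (finrank F K - i) (fib (L := K) v),
        (∏ σ ∈ t, σ (β : K)) ^ m := by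
    rw [← coeff_map, gm_map hβ hm, Finset.prod_eq_multiset_prod]
    have e : (Multiset.map (fun σ : K →ₐ[ℚ] ℂ => X - C (σ ((β ^ m : 𝓞 K) : K)))
        (fib (L := K) v).val) = Multiset.map (fun a : ℂ => X - C a)
          (Multiset.map (fun σ : K →ₐ[ℚ] ℂ => σ ((β ^ m : 𝓞 K) : K)) (fib (L := K) v).val) := by
      rw [Multiset.map_map]; rfl
    have hc : (Multiset.map (fun σ : K →ₐ[ℚ] ℂ => σ ((β ^ m : 𝓞 K) : K))
        (fib (L := K) v).val).card = finrank F K := by
      rw [Multiset.card_map]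
      exact card_fib v
    rw [e, Multiset.prod_X_sub_C_coeff _ (by rw [hc]; exact hi), hc, Finset.esymm_map_val]
    congr 1
    refine sum_congr rfl fun t _ => ?_
    rw [← prod_pow]
    refine prod_congr rfl fun σ _ => ?_
    show σ (algebraMap (𝓞 K) K (β ^ m)) = _
    rw [map_pow, map_pow]
  rw [map_mul, h1, map_pow, map_neg, map_one, ← mul_assoc, ← mul_pow]
  norm_num

/-- the induced automorphism of the ring of integers -/
noncomputable abbrev tO (τ : F ≃+* F) : 𝓞 F →+* 𝓞 F := RingOfIntegers.mapRingHom (τ : F →+* F)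

/-- **The congruence for the coefficients.** -/
theorem coeff_cong {β : 𝓞 K} (hβ : Gen F β) (P : Ideal (𝓞 F)) (p : ℕ) (hp : p.Prime)
    (hpP : (p : 𝓞 F) ∈ P) (L : ℕ) (τ : F ≃+* F) (hL : ∀ x : 𝓞 F, x ^ p ^ L - tO τ x ∈ P) (i l : ℕ) :
    (gm F β (p ^ (l + L))).coeff i - tO τ ((gm F β (p ^ l)).coeff i) ∈ P ^ (l + 1) := by
  haveI : Fact p.Prime := ⟨hp⟩
  have hpos : ∀ m, 0 < p ^ m := fun m => pow_pos hp.pos m
  rcases Nat.lt_or_ge (finrank F K) i with hi | hi
  · rw [coeff_eq_zero_of_natDegree_lt (by rw [gm_natDegree hβ (hpos _)]; exact hi),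
      coeff_eq_zero_of_natDegree_lt (by rw [gm_natDegree hβ (hpos _)]; exact hi), map_zero,
      sub_zero]
    exact Ideal.zero_mem _
  · obtain ⟨σ⟩ : Nonempty (F →+* ℂ) := inferInstance
    set v : F →ₐ[ℚ] ℂ := σ.toRatAlgHom
    set r := finrank F K - i with hr
    obtain ⟨c, hc, hs⟩ := exists_coord (p := p) v (powersetCard r (fib (L := K) v))
      (fun t => ∏ σ ∈ t, σ (β : K))
      (fun t _ => IsIntegral.prod _ fun σ _ => β.isIntegral_coe.map (σ.restrictScalars ℤ))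
      (fun m => (((-1) ^ r * (gm F β (p ^ m)).coeff i : 𝓞 F) : F))
      fun m => gm_coeff hβ (hpos m) v hi
    set c' : ℕ → 𝓞 F := fun i => ⟨c i, hc i⟩ with hc'
    have h1 : ∀ m, (-1) ^ r * (gm F β (p ^ m)).coeff i = ∑ i ∈ range (m + 1), (p : 𝓞 F) ^ i *
        c' i ^ p ^ (m - i) := by
      intro m
      apply RingOfIntegers.ext
      refine (hs m).trans ?_
      show _ = algebraMap (𝓞 F) F (∑ i ∈ range (m + 1), (p : 𝓞 F) ^ i * c' i ^ p ^ (m - i))
      rw [map_sum]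
      refine sum_congr rfl fun i _ => ?_
      rw [map_mul, map_pow, map_pow, map_natCast]
      rfl
    have h2 := ghost_mem P hpP L c' (tO τ) hL l
    rw [← h1, ← h1, map_mul, map_pow, map_neg, map_one, ← mul_sub] at h2
    have h3 := Ideal.mul_mem_left _ ((-1 : 𝓞 F) ^ r) h2
    rw [← mul_assoc, ← mul_pow] at h3
    norm_num at h3
    exact h3

theorem tO_mem (P : Ideal (𝓞 F)) (q : ℕ) (hq : 0 < q) (τ : F ≃+* F)
    (hL : ∀ x : 𝓞 F, x ^ q - tO τ x ∈ P) (e : ℕ) {x : 𝓞 F} (hx : x ∈ P ^ e) :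
    tO τ x ∈ P ^ e := by
  have h1 : P.map (tO τ) ≤ P := by
    rw [Ideal.map_le_iff_le_comap]
    intro y hy
    rw [Ideal.mem_comap]
    have h2 := hL y
    have h3 : y ^ q ∈ P := Ideal.pow_mem_of_mem P hy q hq
    have h4 := Ideal.sub_mem _ h3 h2
    rwa [sub_sub_cancel] at h4
  have h2 : (P ^ e).map (tO τ) ≤ P ^ e := by
    rw [Ideal.map_pow]
    exact Ideal.pow_right_mono h1 e
  exact h2 (Ideal.mem_map_of_mem _ hx)

/-- the telescoping congruence -/
theorem coeff_tele {β : 𝓞 K} (hβ : Gen F β) (P : Ideal (𝓞 F)) (p : ℕ) (hp : p.Prime)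
    (hpP : (p : 𝓞 F) ∈ P) (L : ℕ) (τ : F ≃+* F) (hL : ∀ x : 𝓞 F, x ^ p ^ L - tO τ x ∈ P)
    (i a k : ℕ) :
    (gm F β ((p ^ L) ^ (a + k))).coeff i - (tO τ ^ k) ((gm F β ((p ^ L) ^ a)).coeff i) ∈
      P ^ (L * a + 1) := by
  induction k with
  | zero =>
    have : (tO τ ^ 0) ((gm F β ((p ^ L) ^ a)).coeff i) = (gm F β ((p ^ L) ^ a)).coeff i := rfl
    rw [this, add_zero, sub_self]
    exact Ideal.zero_mem _
  | succ k ih =>
    have h1 := tO_mem P (p ^ L) (pow_pos hp.pos _) τ hL _ ih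
    have h2 := coeff_cong hβ P p hp hpP L τ hL i (L * (a + k))
    have e1 : p ^ (L * (a + k) + L) = (p ^ L) ^ (a + (k + 1)) := by
      rw [← pow_mul]
      rfl
    have e2 : p ^ (L * (a + k)) = (p ^ L) ^ (a + k) := by rw [pow_mul]
    rw [e1, e2] at h2
    have h3 : P ^ (L * (a + k) + 1) ≤ P ^ (L * a + 1) :=
      Ideal.pow_le_pow_right (by nlinarith [Nat.zero_le (L * k)])
    have h4 := Ideal.add_mem _ (h3 h2) h1
    have h5 : (tO τ ^ (k + 1)) ((gm F β ((p ^ L) ^ a)).coeff i) =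
        tO τ ((tO τ ^ k) ((gm F β ((p ^ L) ^ a)).coeff i)) := by
      rw [pow_succ']
      rfl
    rw [h5]
    rw [map_sub] at h4
    convert h4 using 1
    ring

end Pool.Agent.Q191.MV
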