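import Mathlib
import Pool.Agent.H225R3.Marg8
import Pool.Agent.Q191.MV.Coef

/-!
# The products of differences
-/

set_option autoImplicit false
set_option linter.unusedSectionVars false
set_option linter.style.haveILetI false

open Finset Polynomial Module NumberField

namespace Pool.Agent.Q191.MV

open Pool.Agent.Q262.AB (fib mem_fib card_fib exists_coord)
open Pool.Agent.H225R3.Marg (emb norm_int_eq)

variable {F K : Type} [Field F] [NumberField F] [Field K] [NumberField K] [Algebra F K]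

/-- an element in all the powers of prime ideals is in the product -/
theorem mem_prod (p : ℕ) (hp : p.Prime) (T : Finset (Ideal (𝓞 F)))
    (hT : ∀ P ∈ T, P.IsPrime ∧ (p : 𝓞 F) ∈ P) (e : ℕ) (x : 𝓞 F)
    (h : ∀ P ∈ T, x ∈ P ^ e) : x ∈ ∏ P ∈ T, P ^ e := by
  classical
  have hne : ∀ P ∈ T, P ≠ ⊥ := by
    rintro P hP rfl
    have := (hT _ hP).2
    rw [Ideal.mem_bot] at this
    exact hp.ne_zero (by exact_mod_cast this)
  have h1 : ∏ P ∈ T, P ^ e ∣ Ideal.span {x} := by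
    refine Finset.prod_dvd_of_coprime ?_ ?_
    · intro I hI J hJ hIJ
      have hIm : I.IsMaximal := (hT I hI).1.isMaximal (hne I hI)
      have hJm : J.IsMaximal := (hT J hJ).1.isMaximal (hne J hJ)
      exact IsCoprime.pow (Ideal.isCoprime_iff_sup_eq.mpr (hIm.coprime_of_ne hJm hIJ))
    · intro I hI
      rw [Ideal.dvd_iff_le, Ideal.span_singleton_le_iff_mem]
      exact h I hI
  exact Ideal.le_of_dvd h1 (Ideal.mem_span_singleton_self x)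

/-- the value of a polynomial with coefficients in an ideal -/
theorem eval₂_mem (I : Ideal (𝓞 F)) (g : (𝓞 F)[X]) (hg : ∀ i, g.coeff i ∈ I) (x : 𝓞 K) :
    g.eval₂ (algebraMap (𝓞 F) (𝓞 K)) x ∈ I.map (algebraMap (𝓞 F) (𝓞 K)) := by
  rw [eval₂_eq_sum, Polynomial.sum]
  exact Ideal.sum_mem _ fun i _ => Ideal.mul_mem_right _ _ (Ideal.mem_map_of_mem _ (hg i))

/-- the logarithm of the norm -/
theorem sum_log {y : 𝓞 K} (hy : y ≠ 0) :
    ∑ σ : K →ₐ[ℚ] ℂ, Real.log ‖σ (y : K)‖ = Real.log ((Algebra.norm ℤ y).natAbs : ℝ) := by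
  rw [norm_int_eq, Real.log_prod]
  · exact (Fintype.sum_equiv (RingHom.equivRatAlgHom K ℂ) _ _ fun σ => rfl).symm
  · intro σ _ h
    rw [norm_eq_zero] at h
    have h1 : σ (y : K) = 0 := h
    rw [map_eq_zero] at h1
    exact hy (RingOfIntegers.ext h1)

theorem norm_ne {y : 𝓞 K} (hy : y ≠ 0) : (Algebra.norm ℤ y).natAbs ≠ 0 := by
  rw [Ne, Int.natAbs_eq_zero, Algebra.norm_eq_zero_iff]
  exact hy

theorem norm_ge (p : ℕ) (hp : p.Prime) (T : Finset (Ideal (𝓞 F)))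
    (hT : ∀ P ∈ T, P.IsPrime ∧ (p : 𝓞 F) ∈ P) (e : ℕ) (g : (𝓞 F)[X])
    (hg : ∀ i, ∀ P ∈ T, g.coeff i ∈ P ^ e) (x : 𝓞 K)
    (hy : g.eval₂ (algebraMap (𝓞 F) (𝓞 K)) x ≠ 0) :
    e * finrank F K * Real.log (∏ P ∈ T, (Ideal.absNorm P : ℝ)) ≤
      ∑ σ : K →ₐ[ℚ] ℂ, Real.log ‖σ ((g.eval₂ (algebraMap (𝓞 F) (𝓞 K)) x : 𝓞 K) : K)‖ := by
  rw [sum_log hy]
  set y := g.eval₂ (algebraMap (𝓞 F) (𝓞 K)) x with hy'
  have h1 : y ∈ (∏ P ∈ T, P ^ e).map (algebraMap (𝓞 F) (𝓞 K)) :=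
    eval₂_mem _ g (fun i => mem_prod p hp T hT e _ (hg i)) x
  have h2 : Ideal.absNorm ((∏ P ∈ T, P ^ e).map (algebraMap (𝓞 F) (𝓞 K))) ∣
      (Algebra.norm ℤ y).natAbs := by
    rw [← Ideal.absNorm_span_singleton]
    exact Ideal.absNorm_dvd_absNorm_of_le ((Ideal.span_singleton_le_iff_mem _).2 h1)
  have h3 : finrank (𝓞 F) (𝓞 K) = finrank F K :=
    (IsFractionRing.finrank_eq (𝓞 F) F (𝓞 K) K).symm
  rw [Ideal.absNorm_algebraMap, h3, map_prod] at h2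
  simp only [map_pow] at h2
  rw [prod_pow, ← pow_mul] at h2
  have h4 := Nat.le_of_dvd (Nat.pos_of_ne_zero (norm_ne hy)) h2
  have h5 : ((∏ P ∈ T, (Ideal.absNorm P : ℝ)) ^ (e * finrank F K)) ≤
      ((Algebra.norm ℤ y).natAbs : ℝ) := by
    exact_mod_cast h4
  have h6 : 0 < ∏ P ∈ T, (Ideal.absNorm P : ℝ) := by
    refine prod_pos fun P hP => ?_
    have : Ideal.absNorm P ≠ 0 := by
      intro h
      rw [Ideal.absNorm_eq_zero_iff] at h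
      rw [h] at hP
      have := (hT _ hP).2
      rw [Ideal.mem_bot] at this
      exact hp.ne_zero (by exact_mod_cast this)
    positivity
  have h7 := Real.log_le_log (by positivity) h5
  rw [Real.log_pow] at h7
  push_cast at h7
  exact h7

theorem eval_map_embO (g : (𝓞 F)[X]) (x : 𝓞 K) {v : F →ₐ[ℚ] ℂ} {σ : K →ₐ[ℚ] ℂ}
    (hσ : σ ∈ fib (L := K) v) :
    σ ((g.eval₂ (algebraMap (𝓞 F) (𝓞 K)) x : 𝓞 K) : K) = (g.map (embO v)).eval (σ (x : K)) := by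
  have h1 : σ ((g.eval₂ (algebraMap (𝓞 F) (𝓞 K)) x : 𝓞 K) : K) =
      ((σ : K →+* ℂ).comp (algebraMap (𝓞 K) K)) (g.eval₂ (algebraMap (𝓞 F) (𝓞 K)) x) := rfl
  rw [h1, hom_eval₂, eval_map]
  congr 1
  ext a
  exact mem_fib.1 hσ a

theorem gm_eval (β : 𝓞 K) (m : ℕ) :
    (gm F β m).eval₂ (algebraMap (𝓞 F) (𝓞 K)) (β ^ m) = 0 := by
  apply RingOfIntegers.ext
  have h1 : algebraMap (𝓞 K) K ((gm F β m).eval₂ (algebraMap (𝓞 F) (𝓞 K)) (β ^ m)) =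
      aeval ((β ^ m : 𝓞 K) : K) (gm F β m) := by
    rw [hom_eval₂]
    rfl
  exact h1.trans (minpoly.aeval _ _)

/-- **The products of the differences of different powers.** -/
theorem cross_le {β : 𝓞 K} (hβ : Gen F β) (hβ0 : β ≠ 0) (hroot : ∀ m : ℕ, 0 < m → β ^ m ≠ 1)
    (p : ℕ) (hp : p.Prime) (T : Finset (Ideal (𝓞 F)))
    (hT : ∀ P ∈ T, P.IsPrime ∧ (p : 𝓞 F) ∈ P) (L : ℕ) (hL0 : 0 < L) (τ : F ≃+* F)
    (hL : ∀ P ∈ T, ∀ x : 𝓞 F, x ^ p ^ L - tO τ x ∈ P) (a k : ℕ) (hk : 0 < k) :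
    ((L * a + 1 : ℕ) : ℝ) * finrank F K * Real.log (∏ P ∈ T, (Ideal.absNorm P : ℝ)) ≤
      ∑ v : F →ₐ[ℚ] ℂ, ∑ σ ∈ fib (L := K) v, ∑ σ' ∈ fib (L := K) (vt v τ k),
        Real.log ‖σ ((β : K) ^ (p ^ L) ^ (a + k)) - σ' ((β : K) ^ (p ^ L) ^ a)‖ := by
  classical
  have hq : 1 < p ^ L := Nat.one_lt_pow hL0.ne' hp.one_lt
  have hpos : ∀ m, 0 < (p ^ L) ^ m := fun m => pow_pos (by omega) m
  set g : (𝓞 F)[X] := (gm F β ((p ^ L) ^ a)).map (tO τ ^ k) - gm F β ((p ^ L) ^ (a + k)) with hg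
  set x : 𝓞 K := β ^ (p ^ L) ^ (a + k) with hx
  have hgy : g.eval₂ (algebraMap (𝓞 F) (𝓞 K)) x =
      ((gm F β ((p ^ L) ^ a)).map (tO τ ^ k)).eval₂ (algebraMap (𝓞 F) (𝓞 K)) x := by
    rw [hg, eval₂_sub, gm_eval, sub_zero]
  have hβ0' : (β : K) ≠ 0 := fun h => hβ0 (RingOfIntegers.ext h)
  have hroot' : ∀ m : ℕ, 0 < m → (β : K) ^ m ≠ 1 := by
    intro m hm h
    apply hroot m hm
    apply RingOfIntegers.ext
    show algebraMap (𝓞 K) K (β ^ m) = algebraMap (𝓞 K) K 1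
    rw [map_pow, map_one]
    exact h
  have hcoe : ∀ m : ℕ, ((β ^ m : 𝓞 K) : K) = (β : K) ^ m := fun m => map_pow (algebraMap (𝓞 K) K) β m
  have hval : ∀ v : F →ₐ[ℚ] ℂ, ∀ σ ∈ fib (L := K) v,
      σ ((g.eval₂ (algebraMap (𝓞 F) (𝓞 K)) x : 𝓞 K) : K) =
        ∏ σ' ∈ fib (L := K) (vt v τ k),
          (σ ((β : K) ^ (p ^ L) ^ (a + k)) - σ' ((β : K) ^ (p ^ L) ^ a)) := by
    intro v σ hσ
    rw [hgy, eval_map_embO _ _ hσ, Polynomial.map_map, ← embO_vt, gm_map hβ (hpos a), eval_prod]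
    refine prod_congr rfl fun σ' _ => ?_
    rw [eval_sub, eval_X, eval_C, hx, hcoe, hcoe]
  have hne : ∀ σ σ' : K →ₐ[ℚ] ℂ, σ ((β : K) ^ (p ^ L) ^ (a + k)) ≠ σ' ((β : K) ^ (p ^ L) ^ a) :=
    fun σ σ' => conj_ne β.isIntegral_coe hβ0' hroot' (fun h => by
      have := Nat.pow_right_injective hq h
      omega) σ σ'
  have hy : g.eval₂ (algebraMap (𝓞 F) (𝓞 K)) x ≠ 0 := by
    intro h0
    obtain ⟨σ⟩ : Nonempty (K →ₐ[ℚ] ℂ) := ⟨IsAlgClosed.lift⟩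
    set v : F →ₐ[ℚ] ℂ := σ.comp (IsScalarTower.toAlgHom ℚ F K) with hv
    have hσ : σ ∈ fib (L := K) v := mem_fib.2 fun a => rfl
    have h1 := hval v σ hσ
    rw [h0] at h1
    have h2 : σ ((0 : 𝓞 K) : K) = 0 := map_zero σ
    rw [h2] at h1
    obtain ⟨σ', _, h3⟩ := Finset.prod_eq_zero_iff.mp h1.symm
    exact hne σ σ' (sub_eq_zero.mp h3)
  have h1 := norm_ge p hp T hT (L * a + 1) g (fun i P hP => by
    rw [hg, coeff_sub, coeff_map]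
    have h2 := coeff_tele hβ P p hp (hT P hP).2 L τ (hL P hP) i a k
    rw [← neg_mem_iff] at h2
    rwa [neg_sub] at h2) x hy
  refine h1.trans (le_of_eq ?_)
  rw [← sum_fib (F := F)]
  refine sum_congr rfl fun v _ => sum_congr rfl fun σ hσ => ?_
  rw [hval v σ hσ, norm_prod, Real.log_prod]
  exact fun σ' _ => norm_ne_zero_iff.2 (sub_ne_zero.2 (hne σ σ'))

/-- **The relative discriminant.** -/
theorem disc_nonneg [DecidableEq (K →ₐ[ℚ] ℂ)] {β : 𝓞 K} (hβ : Gen F β) (m : ℕ) (hm : 0 < m) :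
    0 ≤ ∑ v : F →ₐ[ℚ] ℂ, ∑ σ ∈ fib (L := K) v, ∑ σ' ∈ fib (L := K) v,
        (if σ = σ' then 0 else Real.log ‖σ ((β : K) ^ m) - σ' ((β : K) ^ m)‖) := by
  set y : 𝓞 K := (derivative (gm F β m)).eval₂ (algebraMap (𝓞 F) (𝓞 K)) (β ^ m) with hy
  have hcoe : ((β ^ m : 𝓞 K) : K) = (β : K) ^ m := map_pow (algebraMap (𝓞 K) K) β m
  have hval : ∀ v : F →ₐ[ℚ] ℂ, ∀ σ ∈ fib (L := K) v,
      σ (y : K) = ∏ σ' ∈ (fib (L := K) v).erase σ, (σ ((β : K) ^ m) - σ' ((β : K) ^ m)) := by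
    intro v σ hσ
    rw [hy, eval_map_embO _ _ hσ, ← derivative_map, gm_map hβ hm, derivative_prod_finset,
      eval_finsetSum, Finset.sum_eq_single_of_mem σ hσ]
    · rw [eval_mul, eval_prod]
      simp only [derivative_sub, derivative_X, derivative_C, sub_zero, eval_one, mul_one, eval_sub,
        eval_X, eval_C]
      refine prod_congr rfl fun σ' _ => ?_
      rw [hcoe]
    · intro τ hτ hne
      rw [eval_mul, eval_prod, Finset.prod_eq_zero (i := σ) (Finset.mem_erase.2 ⟨hne.symm, hσ⟩),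
        zero_mul]
      rw [eval_sub, eval_X, eval_C, sub_self]
  have hinj : ∀ v : F →ₐ[ℚ] ℂ, ∀ σ ∈ fib (L := K) v, ∀ σ' ∈ (fib (L := K) v).erase σ,
      σ ((β : K) ^ m) - σ' ((β : K) ^ m) ≠ 0 := by
    intro v σ hσ σ' hσ' h
    rw [Finset.mem_erase] at hσ'
    refine hσ'.1 (hβ m hm v hσ'.2 hσ ?_)
    show σ' ((β ^ m : 𝓞 K) : K) = σ ((β ^ m : 𝓞 K) : K)
    rw [hcoe]
    exact (sub_eq_zero.1 h).symm
  have hy0 : y ≠ 0 := by
    intro h0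
    obtain ⟨σ⟩ : Nonempty (K →ₐ[ℚ] ℂ) := ⟨IsAlgClosed.lift⟩
    set v : F →ₐ[ℚ] ℂ := σ.comp (IsScalarTower.toAlgHom ℚ F K) with hv
    have hσ : σ ∈ fib (L := K) v := mem_fib.2 fun a => rfl
    have h1 := hval v σ hσ
    rw [h0] at h1
    have h2 : σ ((0 : 𝓞 K) : K) = 0 := map_zero σ
    rw [h2] at h1
    obtain ⟨σ', h4, h3⟩ := Finset.prod_eq_zero_iff.mp h1.symm
    exact hinj v σ hσ σ' h4 h3
  have h1 : 0 ≤ ∑ σ : K →ₐ[ℚ] ℂ, Real.log ‖σ (y : K)‖ := by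
    rw [sum_log hy0]
    exact Real.log_natCast_nonneg _
  rw [← sum_fib (F := F)] at h1
  refine h1.trans (le_of_eq ?_)
  refine sum_congr rfl fun v _ => sum_congr rfl fun σ hσ => ?_
  rw [hval v σ hσ, norm_prod, Real.log_prod (fun σ' hσ' => norm_ne_zero_iff.2 (hinj v σ hσ σ' hσ'))]
  refine Eq.trans ?_ (Finset.sum_erase (fib (L := K) v) (a := σ) (by rw [if_pos rfl]))
  refine sum_congr rfl fun σ' hσ' => ?_
  rw [if_neg (Finset.ne_of_mem_erase hσ').symm]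

end Pool.Agent.Q191.MV
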