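import Mathlib
import Pool.Agent.Helper209.CX.A01

/-!
# The Vandermonde determinant and Hadamard's inequality
-/

set_option autoImplicit false

open Finset

namespace Pool.Agent.Q191.MV

theorem det_le {N : ℕ} (M : Matrix (Fin N) (Fin N) ℂ) :
    ‖M.det‖ ^ 2 ≤ ∏ i, ∑ j, ‖M i j‖ ^ 2 := by
  let b := EuclideanSpace.basisFun (Fin N) ℂ
  let v : Fin N → EuclideanSpace ℂ (Fin N) := fun i => WithLp.toLp 2 (M i)
  have h1 := Pool.Agent.Helper209.CX.A01.cx_hadamard_basis N b v
  have h2 : b.toBasis.det v = M.det := by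
    rw [Module.Basis.det_apply, ← Matrix.det_transpose]
    congr 1
  rw [h2] at h1
  have h3 : ∀ i, ‖v i‖ ^ 2 = ∑ j, ‖M i j‖ ^ 2 := by
    intro i
    rw [EuclideanSpace.norm_sq_eq]
  calc ‖M.det‖ ^ 2 ≤ (∏ i, ‖v i‖) ^ 2 := by gcongr
    _ = ∏ i, ‖v i‖ ^ 2 := (Finset.prod_pow _ _ _).symm
    _ = _ := by simp_rw [h3]

theorem vand_fin {N : ℕ} (z : Fin N → ℂ) (hz : Function.Injective z) :
    ∑ i, ∑ j, (if i = j then 0 else Real.log ‖z i - z j‖) ≤
      N * Real.log N + 2 * (N - 1) * ∑ i, Real.log (max 1 ‖z i‖) := by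
  rcases Nat.eq_zero_or_pos N with hN | hN
  · subst hN
    simp
  have hNR : (0 : ℝ) < N := by exact_mod_cast hN
  have hne : ∀ i j : Fin N, i ≠ j → z i - z j ≠ 0 := fun i j hij => sub_ne_zero.2 (hz.ne hij)
  have h1 := det_le (Matrix.vandermonde z)
  have hdet : (Matrix.vandermonde z).det ≠ 0 := Matrix.det_vandermonde_ne_zero_iff.2 hz
  have hrow : ∀ i, ∑ j, ‖Matrix.vandermonde z i j‖ ^ 2 ≤ N * (max 1 ‖z i‖) ^ (2 * (N - 1)) := by
    intro i
    have h2 : ∀ j ∈ (univ : Finset (Fin N)), ‖Matrix.vandermonde z i j‖ ^ 2 ≤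
        (max 1 ‖z i‖) ^ (2 * (N - 1)) := by
      intro j _
      rw [Matrix.vandermonde_apply, norm_pow, ← pow_mul]
      calc ‖z i‖ ^ ((j : ℕ) * 2) ≤ (max 1 ‖z i‖) ^ ((j : ℕ) * 2) :=
            pow_le_pow_left₀ (norm_nonneg _) (le_max_right _ _) _
        _ ≤ _ := pow_le_pow_right₀ (le_max_left _ _) (by have := j.2; omega)
    refine (sum_le_sum h2).trans (le_of_eq ?_)
    rw [sum_const, card_univ, Fintype.card_fin, nsmul_eq_mul]
  have h3 : ‖(Matrix.vandermonde z).det‖ ^ 2 ≤ ∏ i, ((N : ℝ) * (max 1 ‖z i‖) ^ (2 * (N - 1))) :=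
    h1.trans (prod_le_prod (fun i _ => sum_nonneg fun j _ => by positivity) fun i _ => hrow i)
  have hmax : ∀ i, 0 < max 1 ‖z i‖ := fun i => lt_of_lt_of_le one_pos (le_max_left _ _)
  have h4 := Real.log_le_log (by positivity) h3
  rw [Real.log_pow, Real.log_prod (fun i _ => by have := hmax i; positivity)] at h4
  have h5 : ∀ i, Real.log ((N : ℝ) * (max 1 ‖z i‖) ^ (2 * (N - 1))) =
      Real.log N + 2 * (N - 1) * Real.log (max 1 ‖z i‖) := by
    intro i
    rw [Real.log_mul hNR.ne' (by have := hmax i; positivity), Real.log_pow]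
    push_cast [Nat.cast_sub (show 1 ≤ N from hN)]
    ring
  simp only [h5] at h4
  rw [sum_add_distrib, sum_const, card_univ, Fintype.card_fin, nsmul_eq_mul, ← mul_sum] at h4
  have h6 : ∑ i, ∑ j, (if i = j then 0 else Real.log ‖z i - z j‖) =
      2 * Real.log ‖(Matrix.vandermonde z).det‖ := by
    rw [Matrix.det_vandermonde, norm_prod, Real.log_prod (fun i _ => by
      rw [norm_prod]
      exact prod_ne_zero_iff.2 fun j hj => norm_ne_zero_iff.2 (hne _ _ (mem_Ioi.1 hj).ne'))]
    have h7 : ∀ i, Real.log ‖∏ j ∈ Ioi i, (z j - z i)‖ = ∑ j ∈ Ioi i, Real.log ‖z i - z j‖ := by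
      intro i
      rw [norm_prod, Real.log_prod fun j hj => norm_ne_zero_iff.2 (hne _ _ (mem_Ioi.1 hj).ne')]
      refine sum_congr rfl fun j _ => ?_
      rw [norm_sub_rev]
    rw [sum_congr rfl fun i _ => h7 i]
    have h8 : ∀ i, ∑ j, (if i = j then 0 else Real.log ‖z i - z j‖) =
        ∑ j ∈ Ioi i, Real.log ‖z i - z j‖ + ∑ j ∈ Iio i, Real.log ‖z i - z j‖ := by
      intro i
      have h9 : ∀ j, (if i = j then 0 else Real.log ‖z i - z j‖) =
          (if i < j then Real.log ‖z i - z j‖ else 0) +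
            if j < i then Real.log ‖z i - z j‖ else 0 := by
        intro j
        rcases lt_trichotomy i j with h | h | h
        · rw [if_neg h.ne, if_pos h, if_neg h.not_gt, add_zero]
        · rw [if_pos h, if_neg h.not_lt, if_neg h.symm.not_lt, add_zero]
        · rw [if_neg h.ne', if_neg h.not_gt, if_pos h, zero_add]
      rw [sum_congr rfl fun j _ => h9 j, sum_add_distrib, ← sum_filter, ← sum_filter]
      congr 1
      · refine sum_congr ?_ fun _ _ => rfl
        ext j
        simp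
      · refine sum_congr ?_ fun _ _ => rfl
        ext j
        simp
    rw [sum_congr rfl fun i _ => h8 i, sum_add_distrib, two_mul]
    congr 1
    have h10 : ∀ i, ∑ j ∈ Iio i, Real.log ‖z i - z j‖ =
        ∑ j, if j < i then Real.log ‖z i - z j‖ else 0 := by
      intro i
      rw [← sum_filter]
      refine sum_congr ?_ fun _ _ => rfl
      ext j
      simp
    have h11 : ∀ i, ∑ j ∈ Ioi i, Real.log ‖z i - z j‖ =
        ∑ j, if i < j then Real.log ‖z i - z j‖ else 0 := by
      intro i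
      rw [← sum_filter]
      refine sum_congr ?_ fun _ _ => rfl
      ext j
      simp
    rw [sum_congr rfl fun i _ => h10 i, sum_congr rfl fun i _ => h11 i, sum_comm]
    refine sum_congr rfl fun i _ => sum_congr rfl fun j _ => ?_
    rw [norm_sub_rev]
  rw [h6]
  exact_mod_cast h4

/-- the inequality for a finite family of distinct complex numbers -/
theorem vand {ι : Type*} [DecidableEq ι] (s : Finset ι) (z : ι → ℂ)
    (hz : ∀ i ∈ s, ∀ j ∈ s, i ≠ j → z i ≠ z j) :
    ∑ i ∈ s, ∑ j ∈ s, (if i = j then 0 else Real.log ‖z i - z j‖) ≤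
      s.card * Real.log s.card + 2 * (s.card - 1) * ∑ i ∈ s, Real.log (max 1 ‖z i‖) := by
  set e := s.equivFin.symm with he
  have h1 := vand_fin (fun i => z (e i)) (by
    intro i j h
    by_contra hij
    exact hz _ (e i).2 _ (e j).2 (fun h' => hij (e.injective (Subtype.ext h'))) h)
  have h2 : ∀ f : ι → ℝ, ∑ i ∈ s, f i = ∑ i : Fin s.card, f (e i) := by
    intro f
    rw [← Finset.sum_coe_sort s f]
    exact (Equiv.sum_comp e fun i : s => f i).symm
  rw [h2, h2]
  refine le_trans (le_of_eq ?_) h1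
  refine sum_congr rfl fun i _ => ?_
  rw [h2]
  refine sum_congr rfl fun j _ => if_congr ?_ rfl rfl
  constructor
  · intro h
    exact e.injective (Subtype.ext h)
  · intro h
    rw [h]

end Pool.Agent.Q191.MV
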