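import Mathlib
import Pool.Agent.Q191.MV.Cross
import Pool.Agent.Q191.MV.Vand

/-!
# The main inequality
-/

set_option autoImplicit false
set_option linter.unusedSectionVars false
set_option linter.style.haveILetI false

open Finset Polynomial Module NumberField

namespace Pool.Agent.Q191.MV

open Pool.Agent.Q262.AB (fib mem_fib card_fib exists_coord)
open Pool.Agent.H388SL (lam lam_pos lam_pow lam_nonneg energy log_max_pow)

theorem sum_min (J : ℕ) :
    ∑ a ∈ range (J + 1), ∑ b ∈ range (J + 1), (if a = b then (0 : ℝ) else ((min a b : ℕ) : ℝ)) =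
      ((J : ℝ) ^ 3 - J) / 3 := by
  induction J with
  | zero => simp
  | succ J ih =>
    rw [sum_range_succ]
    have h1 : ∀ a ∈ range (J + 1), ∑ b ∈ range (J + 1 + 1),
        (if a = b then (0 : ℝ) else ((min a b : ℕ) : ℝ)) =
        ∑ b ∈ range (J + 1), (if a = b then (0 : ℝ) else ((min a b : ℕ) : ℝ)) + a := by
      intro a ha
      rw [mem_range] at ha
      rw [sum_range_succ, if_neg (by omega), min_eq_left (by omega)]
    have h2 : ∑ b ∈ range (J + 1 + 1), (if J + 1 = b then (0 : ℝ) else ((min (J + 1) b : ℕ) : ℝ)) =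
        ∑ b ∈ range (J + 1), (b : ℝ) := by
      rw [sum_range_succ, if_pos rfl, add_zero]
      refine sum_congr rfl fun b hb => ?_
      rw [mem_range] at hb
      rw [if_neg (by omega), min_eq_right (by omega)]
    have h3 : ∀ n : ℕ, ∑ b ∈ range (n + 1), (b : ℝ) = n * (n + 1) / 2 := by
      intro n
      induction n with
      | zero => simp
      | succ n ih =>
        rw [sum_range_succ, ih]
        push_cast
        ring
    rw [sum_congr rfl h1, sum_add_distrib, ih, h2, h3]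
    push_cast
    ring

theorem sum_one (J : ℕ) :
    ∑ a ∈ range (J + 1), ∑ b ∈ range (J + 1), (if a = b then (0 : ℝ) else 1) =
      (J : ℝ) * (J + 1) := by
  have h : ∀ a ∈ range (J + 1), ∑ b ∈ range (J + 1), (if a = b then (0 : ℝ) else 1) = J := by
    intro a ha
    have h1 : ∀ b ∈ range (J + 1), (if a = b then (0 : ℝ) else 1) = 1 - if a = b then 1 else 0 := by
      intro b _
      split_ifs <;> norm_num
    rw [sum_congr rfl h1, sum_sub_distrib, sum_ite_eq, if_pos ha, sum_const, card_range]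
    simp
  rw [sum_congr rfl h, sum_const, card_range, nsmul_eq_mul]
  push_cast
  ring

variable {F K : Type} [Field F] [NumberField F] [Field K] [NumberField K] [Algebra F K]

/-- the sum of the logarithms of the differences between two levels -/
noncomputable def EE [DecidableEq (K →ₐ[ℚ] ℂ)] (β : 𝓞 K) (q : ℕ) (τ : F ≃+* F) (J a b : ℕ) : ℝ :=
  ∑ v : F →ₐ[ℚ] ℂ, ∑ σ ∈ fib (L := K) (vt v τ (J - a)), ∑ σ' ∈ fib (L := K) (vt v τ (J - b)),
    (if (⟨a, σ⟩ : Σ _ : ℕ, (K →ₐ[ℚ] ℂ)) = ⟨b, σ'⟩ then 0 else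
      Real.log ‖σ ((β : K) ^ q ^ a) - σ' ((β : K) ^ q ^ b)‖)

theorem EE_comm [DecidableEq (K →ₐ[ℚ] ℂ)] (β : 𝓞 K) (q : ℕ) (τ : F ≃+* F) (J a b : ℕ) :
    EE β q τ J a b = EE β q τ J b a := by
  unfold EE
  refine sum_congr rfl fun v _ => ?_
  rw [sum_comm]
  refine sum_congr rfl fun σ _ => sum_congr rfl fun σ' _ => ?_
  rw [norm_sub_rev]
  exact if_congr eq_comm rfl rfl

theorem EE_self [DecidableEq (K →ₐ[ℚ] ℂ)] {β : 𝓞 K} (hβ : Gen F β) (q : ℕ) (hq : 0 < q)
    (τ : F ≃+* F) (J a : ℕ) : 0 ≤ EE β q τ J a a := by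
  refine (disc_nonneg hβ (q ^ a) (pow_pos hq a)).trans (le_of_eq ?_)
  unfold EE
  rw [← sum_vt τ (J - a)]
  refine sum_congr rfl fun v _ => sum_congr rfl fun σ _ => sum_congr rfl fun σ' _ => ?_
  refine if_congr ?_ rfl rfl
  simp

theorem EE_lt [DecidableEq (K →ₐ[ℚ] ℂ)] {β : 𝓞 K} (hβ : Gen F β) (hβ0 : β ≠ 0)
    (hroot : ∀ m : ℕ, 0 < m → β ^ m ≠ 1)
    (p : ℕ) (hp : p.Prime) (T : Finset (Ideal (𝓞 F)))
    (hT : ∀ P ∈ T, P.IsPrime ∧ (p : 𝓞 F) ∈ P) (L : ℕ) (hL0 : 0 < L) (τ : F ≃+* F)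
    (hL : ∀ P ∈ T, ∀ x : 𝓞 F, x ^ p ^ L - tO τ x ∈ P) (J a b : ℕ) (hab : b < a) (ha : a ≤ J) :
    ((L * b + 1 : ℕ) : ℝ) * finrank F K * Real.log (∏ P ∈ T, (Ideal.absNorm P : ℝ)) ≤
      EE β (p ^ L) τ J a b := by
  refine (cross_le hβ hβ0 hroot p hp T hT L hL0 τ hL b (a - b) (by omega)).trans (le_of_eq ?_)
  unfold EE
  rw [← sum_vt τ (J - a)]
  refine sum_congr rfl fun v _ => sum_congr rfl fun σ _ => ?_
  rw [vt_add, show J - a + (a - b) = J - b by omega, show b + (a - b) = a by omega]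
  refine sum_congr rfl fun σ' _ => ?_
  rw [if_neg]
  intro h
  have := congrArg Sigma.fst h
  simp only at this
  omega

/-- **The main inequality.** -/
theorem main_ineq {β : 𝓞 K} (hβ : Gen F β) (hβ0 : β ≠ 0)
    (hroot : ∀ m : ℕ, 0 < m → β ^ m ≠ 1)
    (p : ℕ) (hp : p.Prime) (T : Finset (Ideal (𝓞 F)))
    (hT : ∀ P ∈ T, P.IsPrime ∧ (p : 𝓞 F) ∈ P) (L : ℕ) (hL0 : 0 < L) (τ : F ≃+* F)
    (hL : ∀ P ∈ T, ∀ x : 𝓞 F, x ^ p ^ L - tO τ x ∈ P) (J : ℕ) :
    Real.log (∏ P ∈ T, (Ideal.absNorm P : ℝ)) * (L * (J * (J - 1) / 3) + J) ≤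
      2 * (∑ j ∈ range (J + 1), ((p ^ L : ℕ) : ℝ) ^ j) * lam (β : K) +
        finrank ℚ F * Real.log (finrank F K * (J + 1)) := by
  classical
  set q := p ^ L with hq
  set X := Real.log (∏ P ∈ T, (Ideal.absNorm P : ℝ)) with hX
  set D := finrank F K with hD
  have hD0 : 0 < D := by
    haveI : FiniteDimensional F K := FiniteDimensional.right ℚ F K
    exact finrank_pos
  have hq1 : 1 < q := Nat.one_lt_pow hL0.ne' hp.one_lt
  have hX0 : 0 ≤ X := by
    rw [hX]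
    have : ∏ P ∈ T, (Ideal.absNorm P : ℝ) = ((∏ P ∈ T, Ideal.absNorm P : ℕ) : ℝ) := by push_cast; rfl
    rw [this]
    exact Real.log_natCast_nonneg _
  set N : ℕ := D * (J + 1) with hN
  have hN0 : 0 < N := Nat.mul_pos hD0 (by omega)
  have hNR : (1 : ℝ) ≤ N := by exact_mod_cast hN0
  set s : (F →ₐ[ℚ] ℂ) → Finset (Σ _ : ℕ, (K →ₐ[ℚ] ℂ)) := fun v =>
    (range (J + 1)).sigma fun j => fib (L := K) (vt v τ (J - j)) with hs
  set z : (Σ _ : ℕ, (K →ₐ[ℚ] ℂ)) → ℂ := fun i => i.2 ((β : K) ^ q ^ i.1) with hz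
  have hβ0' : (β : K) ≠ 0 := fun h => hβ0 (RingOfIntegers.ext h)
  have hroot' : ∀ m : ℕ, 0 < m → (β : K) ^ m ≠ 1 := by
    intro m hm h
    apply hroot m hm
    apply RingOfIntegers.ext
    show algebraMap (𝓞 K) K (β ^ m) = algebraMap (𝓞 K) K 1
    rw [map_pow, map_one]
    exact h
  have hinj : ∀ v, ∀ i ∈ s v, ∀ j ∈ s v, i ≠ j → z i ≠ z j := by
    rintro v ⟨a, σ⟩ hi ⟨b, σ'⟩ hj hij
    rw [hs, mem_sigma] at hi hj
    by_cases hab : a = b
    · subst hab
      intro h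
      have h2 : σ = σ' := by
        refine hβ (q ^ a) (pow_pos (by omega) a) _ hi.2 hj.2 ?_
        have e : ((β ^ q ^ a : 𝓞 K) : K) = (β : K) ^ q ^ a := map_pow (algebraMap (𝓞 K) K) β _
        simp only [e]
        exact h
      exact hij (by rw [h2])
    · exact conj_ne β.isIntegral_coe hβ0' hroot'
        (fun h => hab (Nat.pow_right_injective hq1 h)) σ σ'
  have hcard : ∀ v, (s v).card = N := by
    intro v
    rw [hs, card_sigma, hN]
    simp only [card_fib]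
    rw [sum_const, card_range, smul_eq_mul, mul_comm]
  have hlog0 : ∀ v, 0 ≤ ∑ i ∈ s v, Real.log (max 1 ‖z i‖) := fun v =>
    sum_nonneg fun i _ => Real.log_nonneg (le_max_left _ _)
  have hEn : ∀ v, ∑ i ∈ s v, ∑ j ∈ s v, (if i = j then 0 else Real.log ‖z i - z j‖) ≤
      2 * N * (∑ i ∈ s v, Real.log (max 1 ‖z i‖)) + N * Real.log N := by
    intro v
    have h := vand (s v) z (hinj v)
    rw [hcard v] at h
    have := hlog0 v
    nlinarith
  -- the left side
  have hleft : ∑ v, ∑ i ∈ s v, ∑ j ∈ s v, (if i = j then 0 else Real.log ‖z i - z j‖) =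
      ∑ a ∈ range (J + 1), ∑ b ∈ range (J + 1), EE β q τ J a b := by
    unfold EE
    have h1 : ∀ v : F →ₐ[ℚ] ℂ, ∑ i ∈ s v, ∑ j ∈ s v, (if i = j then 0 else Real.log ‖z i - z j‖) =
        ∑ a ∈ range (J + 1), ∑ b ∈ range (J + 1), ∑ σ ∈ fib (L := K) (vt v τ (J - a)),
          ∑ σ' ∈ fib (L := K) (vt v τ (J - b)),
          (if (⟨a, σ⟩ : Σ _ : ℕ, (K →ₐ[ℚ] ℂ)) = ⟨b, σ'⟩ then 0 else
            Real.log ‖σ ((β : K) ^ q ^ a) - σ' ((β : K) ^ q ^ b)‖) := by
      intro v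
      rw [hs, sum_sigma]
      refine sum_congr rfl fun a _ => ?_
      conv_rhs => rw [sum_comm]
      refine sum_congr rfl fun σ _ => ?_
      rw [sum_sigma]
    rw [sum_congr rfl fun v _ => h1 v, sum_comm]
    refine sum_congr rfl fun a _ => ?_
    rw [sum_comm]
  have hlow : ∀ a ∈ range (J + 1), ∀ b ∈ range (J + 1),
      D * X * (L * (if a = b then (0 : ℝ) else ((min a b : ℕ) : ℝ)) + if a = b then (0 : ℝ) else 1) ≤
        EE β q τ J a b := by
    intro a ha b hb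
    rw [mem_range] at ha hb
    rcases lt_trichotomy a b with h | h | h
    · rw [if_neg h.ne, if_neg h.ne, min_eq_left h.le, EE_comm]
      refine le_trans (le_of_eq ?_)
        (EE_lt hβ hβ0 hroot p hp T hT L hL0 τ hL J b a h (by omega))
      push_cast
      ring
    · subst h
      rw [if_pos rfl, if_pos rfl, mul_zero, add_zero, mul_zero]
      exact EE_self hβ q (by omega) τ J a
    · rw [if_neg h.ne', if_neg h.ne', min_eq_right h.le]
      refine le_trans (le_of_eq ?_)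
        (EE_lt hβ hβ0 hroot p hp T hT L hL0 τ hL J a b h (by omega))
      push_cast
      ring
  have hL1 : D * X * (L * (((J : ℝ) ^ 3 - J) / 3) + J * (J + 1)) ≤
      ∑ a ∈ range (J + 1), ∑ b ∈ range (J + 1), EE β q τ J a b := by
    rw [← sum_min, ← sum_one, mul_sum, ← sum_add_distrib, mul_sum]
    refine sum_le_sum fun a ha => ?_
    rw [mul_sum, ← sum_add_distrib, mul_sum]
    exact sum_le_sum fun b hb => hlow a ha b hb
  -- the right side
  have hright : ∑ v, ∑ i ∈ s v, Real.log (max 1 ‖z i‖) =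
      (∑ j ∈ range (J + 1), (q : ℝ) ^ j) * lam (β : K) := by
    have h1 : ∀ v : F →ₐ[ℚ] ℂ, ∑ i ∈ s v, Real.log (max 1 ‖z i‖) =
        ∑ a ∈ range (J + 1), ∑ σ ∈ fib (L := K) (vt v τ (J - a)),
          Real.log (max 1 ‖σ ((β : K) ^ q ^ a)‖) := by
      intro v
      rw [hs, sum_sigma]
    rw [sum_congr rfl fun v _ => h1 v, sum_comm, sum_mul]
    refine sum_congr rfl fun a _ => ?_
    rw [sum_vt τ (J - a) fun v => ∑ σ ∈ fib (L := K) v, Real.log (max 1 ‖σ ((β : K) ^ q ^ a)‖),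
      sum_fib]
    have h2 := lam_pow (β : K) (q ^ a)
    unfold lam at h2 ⊢
    rw [h2]
    push_cast
    rfl
  have hsum := sum_le_sum fun v (_ : v ∈ (univ : Finset (F →ₐ[ℚ] ℂ))) => hEn v
  rw [hleft, sum_add_distrib, ← mul_sum, hright, sum_const, card_univ, AlgHom.card,
    nsmul_eq_mul] at hsum
  have hfin := hL1.trans hsum
  have hNeq : (N : ℝ) = D * (J + 1) := by
    rw [hN]
    push_cast
    ring
  have e1 : D * X * (L * (((J : ℝ) ^ 3 - J) / 3) + J * (J + 1)) =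
      N * (X * (L * (J * (J - 1) / 3) + J)) := by
    rw [hNeq]
    ring
  have e2 : 2 * (N : ℝ) * ((∑ j ∈ range (J + 1), (q : ℝ) ^ j) * lam (β : K)) +
      finrank ℚ F * (N * Real.log N) =
      N * (2 * (∑ j ∈ range (J + 1), (q : ℝ) ^ j) * lam (β : K) +
        finrank ℚ F * Real.log N) := by ring
  rw [e1, e2] at hfin
  have h3 := le_of_mul_le_mul_left hfin (by linarith)
  rw [hNeq] at h3
  exact h3

end Pool.Agent.Q191.MV
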