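import Mathlib
import Pool.Agent.Q191.MV.Ineq

/-!
# The lower bound for the height
-/

set_option autoImplicit false
set_option linter.unusedSectionVars false
set_option linter.style.haveILetI false

open Finset Polynomial Module NumberField

namespace Pool.Agent.Q191.MV

open Pool.Agent.Q262.AB (fib mem_fib card_fib exists_coord)
open Pool.Agent.H388SL (lam lam_pos lam_pow lam_nonneg energy log_max_pow)

/-- the choice of the number of steps -/
theorem exists_J (κ : ℝ) (hκ : 0 < κ) (W d : ℝ) (hW : 0 ≤ W) (hd : d - Real.log (2 * κ / 3) ≤ W) :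
    ∃ J : ℕ, (J : ℝ) ≤ 3 + √(W / κ) ∧ 1 + d + Real.log (J + 1) ≤ κ * (J * (J - 1)) := by
  have hWκ : 0 ≤ W / κ := by positivity
  set y : ℝ := √(W / κ + 49 / 36) with hy
  have hy2 : y * y = W / κ + 49 / 36 := Real.mul_self_sqrt (by positivity)
  have hy0 : 0 ≤ y := Real.sqrt_nonneg _
  have hyle : y ≤ √(W / κ) + 7 / 6 := by
    have h1 : 0 ≤ √(W / κ) := Real.sqrt_nonneg _
    have h2 := Real.mul_self_sqrt hWκ
    refine Real.sqrt_le_iff.2 ⟨by positivity, ?_⟩
    nlinarith
  refine ⟨⌈5 / 6 + y⌉₊, ?_, ?_⟩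
  · have h1 := Nat.ceil_lt_add_one (show 0 ≤ 5 / 6 + y by positivity)
    linarith
  · set J : ℕ := ⌈5 / 6 + y⌉₊ with hJ
    have h1 : 5 / 6 + y ≤ J := Nat.le_ceil _
    have hJ0 : (0 : ℝ) ≤ J := Nat.cast_nonneg _
    have h2 : y * y ≤ (J - 5 / 6) * (J - 5 / 6) := mul_self_le_mul_self hy0 (by linarith)
    rw [hy2] at h2
    have h3 := mul_le_mul_of_nonneg_left h2 hκ.le
    have h4 : κ * (W / κ + 49 / 36) = W + κ * (49 / 36) := by field_simp
    rw [h4] at h3
    have h5 : Real.log (J + 1) ≤ 2 * κ / 3 * (J + 1) - 1 - Real.log (2 * κ / 3) := by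
      have h6 : 0 < 2 * κ / 3 := by positivity
      have h7 : (0 : ℝ) < J + 1 := by linarith
      have h8 := Real.log_le_sub_one_of_pos (mul_pos h6 h7)
      rw [Real.log_mul h6.ne' h7.ne'] at h8
      linarith
    nlinarith

variable {F K : Type} [Field F] [NumberField F] [Field K] [NumberField K] [Algebra F K]

/-- **The inequality for each number of steps.** -/
theorem raw {β : 𝓞 K} (hβ : Gen F β) (hβ0 : β ≠ 0)
    (hroot : ∀ m : ℕ, 0 < m → β ^ m ≠ 1)
    (p : ℕ) (hp : p.Prime) (T : Finset (Ideal (𝓞 F)))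
    (hT : ∀ P ∈ T, P.IsPrime ∧ (p : 𝓞 F) ∈ P) (L : ℕ) (hL0 : 0 < L) (τ : F ≃+* F)
    (hL : ∀ P ∈ T, ∀ x : 𝓞 F, x ^ p ^ L - tO τ x ∈ P) (B : ℕ)
    (hB : p ^ finrank ℚ F ≤ (∏ P ∈ T, Ideal.absNorm P) ^ B) (J : ℕ) :
    finrank ℚ F * (Real.log p * (L * (J * (J - 1) / 3) + J)) ≤
      B * (2 * (∑ j ∈ range (J + 1), ((p ^ L : ℕ) : ℝ) ^ j) * lam (β : K) +
        finrank ℚ F * Real.log (finrank F K * (J + 1))) := by
  have hmain := main_ineq hβ hβ0 hroot p hp T hT L hL0 τ hL J
  set X := Real.log (∏ P ∈ T, (Ideal.absNorm P : ℝ)) with hX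
  have hXB : finrank ℚ F * Real.log p ≤ B * X := by
    have h1 : ((p : ℝ)) ^ finrank ℚ F ≤ (∏ P ∈ T, (Ideal.absNorm P : ℝ)) ^ B := by
      exact_mod_cast hB
    have hp0 : (0 : ℝ) < p := by exact_mod_cast hp.pos
    have h2 := Real.log_le_log (by positivity) h1
    rw [Real.log_pow, Real.log_pow] at h2
    exact h2
  have hJJ : 0 ≤ (J : ℝ) * (J - 1) := by
    rcases Nat.eq_zero_or_pos J with h | h
    · rw [h]
      simp
    · have : (1 : ℝ) ≤ J := by exact_mod_cast h
      exact mul_nonneg (by linarith) (by linarith)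
  have h0 : 0 ≤ (L * (J * (J - 1) / 3) + J : ℝ) := by positivity
  calc finrank ℚ F * (Real.log p * (L * (J * (J - 1) / 3) + J))
      = (finrank ℚ F * Real.log p) * (L * (J * (J - 1) / 3) + J) := by ring
    _ ≤ (B * X) * (L * (J * (J - 1) / 3) + J) := mul_le_mul_of_nonneg_right hXB h0
    _ = B * (X * (L * (J * (J - 1) / 3) + J)) := by ring
    _ ≤ _ := mul_le_mul_of_nonneg_left hmain (Nat.cast_nonneg _)

/-- the loss -/
noncomputable def loss (q B D : ℕ) : ℝ :=
  4 * (q : ℝ) ^ 3 * Real.exp (√(3 * B * Real.log q * Real.log (7 * B * D)))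

theorem loss_pos (q B D : ℕ) (hq : 0 < q) : 0 < loss q B D := by
  unfold loss
  have : (0 : ℝ) < q := by exact_mod_cast hq
  positivity

/-- **The lower bound for the height.** -/
theorem lower {β : 𝓞 K} (hβ : Gen F β) (hβ0 : β ≠ 0)
    (hroot : ∀ m : ℕ, 0 < m → β ^ m ≠ 1)
    (p : ℕ) (hp : p.Prime) (T : Finset (Ideal (𝓞 F)))
    (hT : ∀ P ∈ T, P.IsPrime ∧ (p : 𝓞 F) ∈ P) (L : ℕ) (hL0 : 0 < L) (τ : F ≃+* F)
    (hL : ∀ P ∈ T, ∀ x : 𝓞 F, x ^ p ^ L - tO τ x ∈ P) (B : ℕ) (hB0 : 0 < B)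
    (hB : p ^ finrank ℚ F ≤ (∏ P ∈ T, Ideal.absNorm P) ^ B) :
    (finrank ℚ F : ℝ) ≤ loss (p ^ L) B (finrank F K) * lam (β : K) := by
  set q := p ^ L with hq
  set D := finrank F K with hD
  set f := finrank ℚ F with hf
  have hD0 : 0 < D := by
    haveI : FiniteDimensional F K := FiniteDimensional.right ℚ F K
    exact finrank_pos
  have hf0 : 0 < f := finrank_pos
  have hq1 : 1 < q := Nat.one_lt_pow hL0.ne' hp.one_lt
  have hqR : (1 : ℝ) < q := by exact_mod_cast hq1
  have hlogq : 0 < Real.log q := Real.log_pos hqR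
  have hBR : (1 : ℝ) ≤ B := by exact_mod_cast hB0
  have hDR : (1 : ℝ) ≤ D := by exact_mod_cast hD0
  have hlogD : 0 ≤ Real.log D := Real.log_nonneg hDR
  have hfR : (0 : ℝ) < f := by exact_mod_cast hf0
  have hLR : (0 : ℝ) < L := by exact_mod_cast hL0
  have hlogp : Real.log q = L * Real.log p := by
    rw [hq]
    push_cast
    rw [Real.log_pow]
  have hp0 : 0 < Real.log p := Real.log_pos (by exact_mod_cast hp.one_lt)
  set κ : ℝ := Real.log q / (3 * B) with hκ
  have hκ0 : 0 < κ := by positivity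
  have hBD : (1 : ℝ) ≤ B * D := one_le_mul_of_one_le_of_one_le hBR hDR
  obtain ⟨J, hJ1, hJ2⟩ := exists_J κ hκ0 (Real.log (7 * B * D)) (Real.log D)
    (Real.log_nonneg (by nlinarith)) (by
      have h1 : Real.log (7 * B * D) = Real.log (7 * B) + Real.log D :=
        Real.log_mul (by positivity) (by positivity)
      have h2 : -Real.log (2 * κ / 3) ≤ Real.log (7 * B) := by
        rw [← Real.log_inv]
        refine Real.log_le_log (by positivity) ?_
        rw [hκ]
        have h3 : (2 : ℝ) ≤ q := by exact_mod_cast hq1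
        have h4 : Real.log 2 ≤ Real.log q := Real.log_le_log (by norm_num) h3
        have h5 : (0.6931471803 : ℝ) < Real.log 2 := Real.log_two_gt_d9
        have h6 : (2 * (Real.log q / (3 * B)) / 3)⁻¹ = 9 * B / (2 * Real.log q) := by
          field_simp
          norm_num
        rw [h6, div_le_iff₀ (by positivity)]
        nlinarith
      rw [h1]
      linarith)
  have hmain := raw hβ hβ0 hroot p hp T hT L hL0 τ hL B hB J
  have hJ0 : (0 : ℝ) ≤ J := Nat.cast_nonneg _
  have hJJ : 0 ≤ (J : ℝ) * (J - 1) := by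
    rcases Nat.eq_zero_or_pos J with h | h
    · rw [h]
      simp
    · have : (1 : ℝ) ≤ J := by exact_mod_cast h
      exact mul_nonneg (by linarith) (by linarith)
  have h1 : f * (B * (κ * (J * (J - 1)))) ≤ f * (Real.log p * (L * (J * (J - 1) / 3) + J)) := by
    refine mul_le_mul_of_nonneg_left ?_ hfR.le
    have h3 : B * (κ * (J * (J - 1))) = Real.log p * (L * (J * (J - 1) / 3)) := by
      rw [hκ, hlogp]
      field_simp
    rw [h3]
    refine mul_le_mul_of_nonneg_left ?_ hp0.le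
    linarith
  have h3 : Real.log (D * (J + 1)) = Real.log D + Real.log (J + 1) :=
    Real.log_mul (by positivity) (by positivity)
  rw [h3] at hmain
  have h4 : (f : ℝ) ≤ 2 * (∑ j ∈ range (J + 1), (q : ℝ) ^ j) * lam (β : K) := by
    have h5 := h1.trans hmain
    have h6 : B * (f * (κ * (J * (J - 1)))) ≤ B * (2 * (∑ j ∈ range (J + 1), (q : ℝ) ^ j) *
        lam (β : K) + f * (Real.log D + Real.log (J + 1))) := by
      refine le_trans (le_of_eq ?_) h5
      ring
    have h7 := le_of_mul_le_mul_left h6 (by linarith)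
    have h8 := mul_le_mul_of_nonneg_left hJ2 hfR.le
    nlinarith
  have h5 : ∑ j ∈ range (J + 1), (q : ℝ) ^ j ≤ 2 * (q : ℝ) ^ J := by
    have h6 : (2 : ℝ) ≤ q := by exact_mod_cast hq1
    clear_value q
    clear hmain h4 h1 h3 hJJ hJ2 hJ1 hJ0
    induction J with
    | zero => simp
    | succ J ih =>
      rw [sum_range_succ, pow_succ]
      have : 0 ≤ (q : ℝ) ^ J := by positivity
      nlinarith
  have hlam := lam_nonneg (β : K)
  have h6 : (f : ℝ) ≤ 4 * (q : ℝ) ^ J * lam (β : K) := by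
    have := mul_le_mul_of_nonneg_right h5 hlam
    linarith
  have h7 : (q : ℝ) ^ J ≤ (q : ℝ) ^ 3 *
      Real.exp (√(3 * B * Real.log q * Real.log (7 * B * D))) := by
    have h8 : (q : ℝ) ^ J = Real.exp (Real.log q * J) := by
      rw [mul_comm, Real.exp_nat_mul, Real.exp_log (by linarith)]
    have h9 : (q : ℝ) ^ 3 = Real.exp (Real.log q * 3) := by
      have : Real.log q * 3 = ((3 : ℕ) : ℝ) * Real.log q := by push_cast; ring
      rw [this, Real.exp_nat_mul, Real.exp_log (by linarith)]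
    rw [h8, h9, ← Real.exp_add]
    refine Real.exp_le_exp.2 ?_
    have h10 : Real.log q * √(Real.log (7 * B * D) / κ) =
        √(3 * B * Real.log q * Real.log (7 * B * D)) := by
      rw [← Real.sqrt_sq hlogq.le, ← Real.sqrt_mul (by positivity), Real.sqrt_sq hlogq.le]
      congr 1
      rw [hκ]
      field_simp
    have h11 := mul_le_mul_of_nonneg_left hJ1 hlogq.le
    rw [mul_add, h10] at h11
    exact h11
  unfold loss
  calc (f : ℝ) ≤ 4 * (q : ℝ) ^ J * lam (β : K) := h6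
    _ ≤ 4 * ((q : ℝ) ^ 3 * Real.exp (√(3 * B * Real.log q * Real.log (7 * B * D)))) *
        lam (β : K) := mul_le_mul_of_nonneg_right (by linarith) hlam
    _ = _ := by ring

end Pool.Agent.Q191.MV
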