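import Mathlib
import Pool.Agent.Y399.MG.G
import Pool.Agent.Q191.MV.Low

/-!
# Reduction to generators
-/

set_option autoImplicit false
set_option linter.unusedSectionVars false
set_option linter.style.haveILetI false

open Finset Polynomial Module NumberField IntermediateField

namespace Pool.Agent.Q191.MV

open Pool.Agent.Q262.AB (fib mem_fib card_fib exists_coord)
open Pool.Agent.H388SL (lam lam_pos lam_pow lam_nonneg energy log_max_pow)
open Pool.Agent.Y399.MG (sigma_norm log_max_prod gap_of)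
open Pool.Agent.H225R3.Marg (emb)

theorem inj_of_adjoin {F K : Type} [Field F] [NumberField F] [Field K] [NumberField K] [Algebra F K]
    {γ : K} (h : F⟮γ⟯ = ⊤) (v : F →ₐ[ℚ] ℂ) :
    Set.InjOn (fun σ : K →ₐ[ℚ] ℂ => σ γ) (fib (L := K) v) := by
  letI : Algebra F ℂ := v.toRingHom.toAlgebra
  haveI : FiniteDimensional F K := FiniteDimensional.right ℚ F K
  intro σ hσ τ hτ hst
  rw [mem_coe, mem_fib] at hσ hτ
  let ψ : K →ₐ[F] ℂ := { σ.toRingHom with commutes' := hσ }
  let χ : K →ₐ[F] ℂ := { τ.toRingHom with commutes' := hτ }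
  have h1 := (Field.primitive_element_iff_algHom_eq_of_eval F ℂ
    (fun x => IsAlgClosed.splits _) γ ψ).mp h
  have h2 : ψ = χ := h1 χ hst
  apply AlgHom.ext
  intro a
  exact congrArg (fun g : K →ₐ[F] ℂ => g a) h2

/-- there is a power of the element whose field is contained in that of each further power -/
theorem exists_min {F L : Type} [Field F] [NumberField F] [Field L] [NumberField L] [Algebra F L]
    (x : L) : ∃ j : ℕ, 0 < j ∧ ∀ i : ℕ, 0 < i → F⟮x ^ (j * i)⟯ = F⟮x ^ j⟯ := by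
  classical
  haveI : FiniteDimensional F L := FiniteDimensional.right ℚ F L
  have hex : ∃ d : ℕ, ∃ j : ℕ, 0 < j ∧ finrank F F⟮x ^ j⟯ = d := ⟨_, 1, one_pos, rfl⟩
  obtain ⟨j, hj, hjd⟩ := Nat.find_spec hex
  refine ⟨j, hj, fun i hi => ?_⟩
  have hle : F⟮x ^ (j * i)⟯ ≤ F⟮x ^ j⟯ := by
    rw [IntermediateField.adjoin_simple_le_iff, pow_mul]
    exact pow_mem (IntermediateField.mem_adjoin_simple_self F (x ^ j)) i
  refine IntermediateField.eq_of_le_of_finrank_le hle ?_
  rw [hjd]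
  exact Nat.find_min' hex ⟨j * i, Nat.mul_pos hj hi, rfl⟩

theorem lam_eq {K : Type} [Field K] [NumberField K] (x : K) :
    lam x = ∑ σ : K →+* ℂ, Real.log (max 1 ‖σ x‖) := by
  unfold lam
  exact (Fintype.sum_equiv (RingHom.equivRatAlgHom K ℂ) _ _ fun σ => rfl).symm

theorem lam_norm_le {E L : Type} [Field E] [NumberField E] [Field L] [NumberField L] [Algebra E L]
    (x : L) : lam (Algebra.norm E x) ≤ lam x := by
  classical
  rw [lam_eq, lam_eq]
  have h2 : ∀ σ : E →+* ℂ, Real.log (max 1 ‖σ (Algebra.norm E x)‖) ≤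
      ∑ τ ∈ univ.filter (fun τ : L →+* ℂ => τ.comp (algebraMap E L) = σ),
        Real.log (max 1 ‖τ x‖) := by
    intro σ
    rw [sigma_norm σ x, norm_prod]
    exact log_max_prod _ _ fun i _ => norm_nonneg _
  refine (Finset.sum_le_sum fun σ _ => h2 σ).trans ?_
  rw [Finset.sum_fiberwise (s := (univ : Finset (L →+* ℂ)))
    (g := fun τ : L →+* ℂ => τ.comp (algebraMap E L)) (f := fun τ => Real.log (max 1 ‖τ x‖))]

/-- **The reduction to generators.** -/
theorem reduce {F L : Type} [Field F] [NumberField F] [Field L] [NumberField L] [Algebra F L]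
    (x : L) (hx0 : x ≠ 0) (hxi : IsIntegral ℤ x) (hroot : ∀ m : ℕ, 0 < m → x ^ m ≠ 1) :
    ∃ (M : IntermediateField F L) (β : 𝓞 M), β ≠ 0 ∧ (∀ m : ℕ, 0 < m → β ^ m ≠ 1) ∧ Gen F β ∧
      lam (β : M) ≤ lam x := by
  classical
  haveI : FiniteDimensional F L := FiniteDimensional.right ℚ F L
  obtain ⟨j, hj, hmin⟩ := exists_min (F := F) x
  set M : IntermediateField F L := F⟮x ^ j⟯ with hM
  haveI : FiniteDimensional M L := FiniteDimensional.right ℚ M L
  have hML : 0 < finrank M L := finrank_pos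
  let z : M := ⟨x ^ j, IntermediateField.mem_adjoin_simple_self F (x ^ j)⟩
  have hz : algebraMap M L z = x ^ j := rfl
  set β : M := Algebra.norm M x with hβ
  have hβj : β ^ j = z ^ finrank M L := by
    rw [hβ, ← map_pow, ← hz, Algebra.norm_algebraMap]
  have hβi : IsIntegral ℤ β := Algebra.isIntegral_norm M hxi
  have hβ0 : β ≠ 0 := by
    rw [hβ]
    exact Algebra.norm_ne_zero_iff.mpr hx0
  have hβroot : ∀ m : ℕ, 0 < m → β ^ m ≠ 1 := by
    intro m hm h
    apply hroot (j * (finrank M L * m)) (Nat.mul_pos hj (Nat.mul_pos hML hm))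
    have h1 : z ^ (finrank M L * m) = 1 := by
      rw [pow_mul, ← hβj, ← pow_mul, mul_comm j m, pow_mul, h, one_pow]
    have h2 : algebraMap M L (z ^ (finrank M L * m)) = 1 := by rw [h1, map_one]
    rwa [map_pow, hz, ← pow_mul] at h2
  have hgen : ∀ i : ℕ, 0 < i → F⟮β ^ i⟯ = ⊤ := by
    intro i hi
    set N : IntermediateField F M := F⟮β ^ i⟯ with hN
    have h1 : z ^ (finrank M L * i) ∈ N := by
      rw [pow_mul, ← hβj, ← pow_mul, mul_comm j i, pow_mul]
      exact pow_mem (IntermediateField.mem_adjoin_simple_self F (β ^ i)) j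
    have h2 : F⟮x ^ (j * (finrank M L * i))⟯ ≤ IntermediateField.lift N := by
      rw [IntermediateField.adjoin_simple_le_iff, pow_mul]
      exact (IntermediateField.mem_lift (z ^ (finrank M L * i))).mpr h1
    rw [hmin _ (Nat.mul_pos hML hi)] at h2
    rw [eq_top_iff]
    intro y _
    exact (IntermediateField.mem_lift y).mp (h2 y.2)
  obtain ⟨b, hb⟩ : ∃ b : 𝓞 M, (b : M) = β := ⟨⟨β, hβi⟩, rfl⟩
  have hbm : ∀ m : ℕ, ((b ^ m : 𝓞 M) : M) = β ^ m := fun m => by
    rw [← hb]
    exact map_pow (algebraMap (𝓞 M) M) b m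
  refine ⟨M, b, ?_, ?_, ?_, ?_⟩
  · intro h
    apply hβ0
    rw [← hb, h]
    rfl
  · intro m hm h
    apply hβroot m hm
    rw [← hbm, h]
    rfl
  · intro m hm v
    rw [hbm]
    exact inj_of_adjoin (hgen m hm) v
  · rw [hb]
    exact lam_norm_le x

theorem loss_mono (q B D D' : ℕ) (hB : 0 < B) (hD : 0 < D) (h : D ≤ D') :
    loss q B D ≤ loss q B D' := by
  unfold loss
  have hBR : (0 : ℝ) < B := by exact_mod_cast hB
  have hDR : (0 : ℝ) < D := by exact_mod_cast hD
  have hR : (D : ℝ) ≤ D' := by exact_mod_cast h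
  have h1 : 0 ≤ Real.log (q : ℝ) := Real.log_natCast_nonneg _
  have h2 : Real.log (7 * B * D) ≤ Real.log (7 * B * D') :=
    Real.log_le_log (by positivity) (mul_le_mul_of_nonneg_left hR (by positivity))
  refine mul_le_mul_of_nonneg_left (Real.exp_le_exp.2 (Real.sqrt_le_sqrt ?_)) (by positivity)
  exact mul_le_mul_of_nonneg_left h2 (by positivity)

/-- **The inequality for each number of steps, for all algebraic integers.** -/
theorem raw' {F L : Type} [Field F] [NumberField F] [Field L] [NumberField L] [Algebra F L]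
    (x : L) (hx0 : x ≠ 0) (hxi : IsIntegral ℤ x) (hroot : ∀ m : ℕ, 0 < m → x ^ m ≠ 1)
    (p : ℕ) (hp : p.Prime) (T : Finset (Ideal (𝓞 F)))
    (hT : ∀ P ∈ T, P.IsPrime ∧ (p : 𝓞 F) ∈ P) (l : ℕ) (hl0 : 0 < l) (τ : F ≃+* F)
    (hl : ∀ P ∈ T, ∀ x : 𝓞 F, x ^ p ^ l - tO τ x ∈ P) (B : ℕ)
    (hB : p ^ finrank ℚ F ≤ (∏ P ∈ T, Ideal.absNorm P) ^ B) (J : ℕ) :
    finrank ℚ F * (Real.log p * (l * (J * (J - 1) / 3) + J)) ≤
      B * (2 * (∑ j ∈ range (J + 1), ((p ^ l : ℕ) : ℝ) ^ j) * lam x +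
        finrank ℚ F * Real.log (finrank F L * (J + 1))) := by
  obtain ⟨M, β, h1, h2, h3, h4⟩ := reduce (F := F) x hx0 hxi hroot
  haveI : FiniteDimensional F L := FiniteDimensional.right ℚ F L
  have h5 := raw h3 h1 h2 p hp T hT l hl0 τ hl B hB J
  refine h5.trans ?_
  haveI : FiniteDimensional M L := FiniteDimensional.right ℚ M L
  have h6 : finrank F M ≤ finrank F L := by
    rw [← Module.finrank_mul_finrank F M L]
    exact Nat.le_mul_of_pos_right _ finrank_pos
  have h7 : 0 < finrank F M := finrank_pos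
  have h8 : (0 : ℝ) < finrank F M := by exact_mod_cast h7
  have h9 : (finrank F M : ℝ) ≤ finrank F L := by exact_mod_cast h6
  refine mul_le_mul_of_nonneg_left ?_ (Nat.cast_nonneg _)
  refine add_le_add (mul_le_mul_of_nonneg_left h4 (by positivity)) ?_
  refine mul_le_mul_of_nonneg_left (Real.log_le_log (by positivity) ?_) (Nat.cast_nonneg _)
  exact mul_le_mul_of_nonneg_right h9 (by positivity)

/-- **The lower bound for all algebraic integers.** -/
theorem lower' {F L : Type} [Field F] [NumberField F] [Field L] [NumberField L] [Algebra F L]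
    (x : L) (hx0 : x ≠ 0) (hxi : IsIntegral ℤ x) (hroot : ∀ m : ℕ, 0 < m → x ^ m ≠ 1)
    (p : ℕ) (hp : p.Prime) (T : Finset (Ideal (𝓞 F)))
    (hT : ∀ P ∈ T, P.IsPrime ∧ (p : 𝓞 F) ∈ P) (l : ℕ) (hl0 : 0 < l) (τ : F ≃+* F)
    (hl : ∀ P ∈ T, ∀ x : 𝓞 F, x ^ p ^ l - tO τ x ∈ P) (B : ℕ) (hB0 : 0 < B)
    (hB : p ^ finrank ℚ F ≤ (∏ P ∈ T, Ideal.absNorm P) ^ B) :
    (finrank ℚ F : ℝ) ≤ loss (p ^ l) B (finrank F L) * lam x := by
  obtain ⟨M, β, h1, h2, h3, h4⟩ := reduce (F := F) x hx0 hxi hroot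
  haveI : FiniteDimensional F L := FiniteDimensional.right ℚ F L
  have h5 := lower h3 h1 h2 p hp T hT l hl0 τ hl B hB0 hB
  refine h5.trans ?_
  haveI : FiniteDimensional M L := FiniteDimensional.right ℚ M L
  have h6 : finrank F M ≤ finrank F L := by
    rw [← Module.finrank_mul_finrank F M L]
    exact Nat.le_mul_of_pos_right _ finrank_pos
  exact mul_le_mul (loss_mono _ _ _ _ hB0 finrank_pos h6) h4 (lam_nonneg _)
    (loss_pos _ _ _ (pow_pos hp.pos _)).le

end Pool.Agent.Q191.MV
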