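import Mathlib
import Pool.Agent.Q191.MV.Red

/-!
# The gap
-/

set_option autoImplicit false
set_option linter.unusedSectionVars false
set_option linter.style.haveILetI false

open Finset Polynomial Module NumberField IntermediateField

namespace Pool.Agent.Q191.MV

open Pool.Agent.H388SL (lam lam_pos lam_pow lam_nonneg energy log_max_pow)
open Pool.Agent.Y399.MG (sigma_norm log_max_prod gap_of)
open Pool.Agent.H225R3.Marg (emb card_over)

/-- The number field `F` has an automorphism `τ` which is congruent to the `q`-th power map modulo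
many prime ideals: `q` is a power of a prime number `p`, and there is a finite set `T` of prime
ideals above `p` with `x ^ q ≡ τ x` modulo each of them, such that the product of their norms is at
least `p ^ ([F : ℚ] / B)`. -/
def FrobeniusAt (F : Type) [Field F] [NumberField F] (q B : ℕ) : Prop :=
  ∃ (p l : ℕ) (τ : F ≃+* F) (T : Finset (Ideal (𝓞 F))), p.Prime ∧ 0 < l ∧ q = p ^ l ∧
    (∀ P ∈ T, P.IsPrime ∧ (p : 𝓞 F) ∈ P ∧
      ∀ x : 𝓞 F, x ^ q - RingOfIntegers.mapRingHom (τ : F →+* F) x ∈ P) ∧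
    p ^ finrank ℚ F ≤ (∏ P ∈ T, Ideal.absNorm P) ^ B

theorem FrobeniusAt.pos {F : Type} [Field F] [NumberField F] {q B : ℕ} (h : FrobeniusAt F q B) :
    0 < B := by
  obtain ⟨p, l, τ, T, hp, hl0, -, hT, hB⟩ := h
  have hf0 : 0 < finrank ℚ F := finrank_pos
  by_contra h
  rw [show B = 0 by omega, pow_zero] at hB
  have := Nat.one_lt_pow hf0.ne' hp.one_lt
  omega

theorem FrobeniusAt.lt {F : Type} [Field F] [NumberField F] {q B : ℕ} (h : FrobeniusAt F q B) :
    1 < q := by
  obtain ⟨p, l, τ, T, hp, hl0, rfl, hT, hB⟩ := h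
  exact Nat.one_lt_pow hl0.ne' hp.one_lt

/-- the lower bound for the height of an algebraic integer -/
theorem lower_at {F L : Type} [Field F] [NumberField F] [Field L] [NumberField L] [Algebra F L]
    {q B : ℕ} (hF : FrobeniusAt F q B) (x : L) (hx0 : x ≠ 0) (hxi : IsIntegral ℤ x)
    (hroot : ∀ m : ℕ, 0 < m → x ^ m ≠ 1) :
    (finrank ℚ F : ℝ) ≤ loss q B (finrank F L) * lam x := by
  have hB0 := hF.pos
  obtain ⟨p, l, τ, T, hp, hl0, rfl, hT, hB⟩ := hF
  exact lower' (F := F) x hx0 hxi hroot p hp T (fun P hP => ⟨(hT P hP).1, (hT P hP).2.1⟩) l hl0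
    τ (fun P hP => (hT P hP).2.2) B hB0 hB

theorem lam_le {k L : Type} [Field k] [NumberField k] [Field L] [NumberField L] [Algebra k L]
    (S : Finset (k →+* ℂ)) (x : L) (R : ℝ) (hR : 1 ≤ R)
    (hout : ∀ τ : L →+* ℂ, τ.comp (algebraMap k L) ∉ S → ‖τ x‖ ≤ 1)
    (hin : ∀ τ : L →+* ℂ, ‖τ x‖ ≤ R) :
    lam x ≤ (S.card * finrank k L : ℕ) * Real.log R := by
  classical
  rw [lam_eq]
  have h3 : ∀ τ : L →+* ℂ, Real.log (max 1 ‖τ x‖) ≤
      if τ.comp (algebraMap k L) ∈ S then Real.log R else 0 := by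
    intro τ
    split_ifs with h
    · exact Real.log_le_log (lt_of_lt_of_le one_pos (le_max_left _ _)) (max_le hR (hin τ))
    · rw [max_eq_left (hout τ h), Real.log_one]
  refine (Finset.sum_le_sum fun τ _ => h3 τ).trans ?_
  rw [← Finset.sum_filter, Finset.sum_const, card_over S, nsmul_eq_mul]

/-- **The gap.** -/
theorem gap (k : Type) [Field k] [NumberField k] (F : Type) [Field F] [NumberField F] [Algebra F k]
    (n s q B : ℕ) (S : Finset (k →+* ℂ)) (A : Matrix (Fin n) (Fin n) (𝓞 k))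
    (hF : FrobeniusAt F q B) (hS : S.card ≤ s) (hA : IsUnit A)
    (hout : ∀ σ : k →+* ℂ, σ ∉ S → ∀ l : ℂ, ((emb σ).mapMatrix A).charpoly.IsRoot l → ‖l‖ ≤ 1)
    (hnil : ∀ N : ℕ, 0 < N → ¬ IsNilpotent (A ^ N - 1)) :
    ∃ σ ∈ S, ∃ l : ℂ, ((emb σ).mapMatrix A).charpoly.IsRoot l ∧ 1 < ‖l‖ ∧
      (finrank ℚ F : ℝ) ≤ s * n * loss q B (n * finrank F k) * Real.log ‖l‖ := by
  have hB0 := hF.pos
  have hq1 := hF.lt
  refine gap_of k n S A (fun R => (finrank ℚ F : ℝ) ≤
    s * n * loss q B (n * finrank F k) * Real.log R) ?_ hA hout hnil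
  intro L _ _ _ x R hx0 hxi hroot hR hout' hin hdeg
  letI : Algebra F L := ((algebraMap k L).comp (algebraMap F k)).toAlgebra
  haveI : IsScalarTower F k L := IsScalarTower.of_algebraMap_eq fun a => rfl
  haveI : FiniteDimensional k L := FiniteDimensional.right ℚ k L
  haveI : FiniteDimensional F L := FiniteDimensional.right ℚ F L
  have h1 := lower_at hF x hx0 hxi hroot
  have h2 := lam_le S x R hR hout' hin
  have hlogR : 0 ≤ Real.log R := Real.log_nonneg hR
  have hFL : 0 < finrank F L := finrank_pos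
  have h3 : lam x ≤ s * n * Real.log R := by
    refine h2.trans (mul_le_mul_of_nonneg_right ?_ hlogR)
    have : S.card * finrank k L ≤ s * n := Nat.mul_le_mul hS hdeg
    exact_mod_cast this
  have h4 : finrank F L ≤ n * finrank F k := by
    rw [← Module.finrank_mul_finrank F k L, mul_comm]
    exact Nat.mul_le_mul_right _ hdeg
  have h5 := loss_mono q B _ _ hB0 hFL h4
  have h6 := loss_pos q B (n * finrank F k) (by omega)
  calc (finrank ℚ F : ℝ) ≤ loss q B (finrank F L) * lam x := h1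
    _ ≤ loss q B (n * finrank F k) * (s * n * Real.log R) := mul_le_mul h5 h3 (lam_nonneg _) h6.le
    _ = _ := by ring

end Pool.Agent.Q191.MV
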