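import Mathlib
import Pool.Agent.Q191.MV.Gap

/-!
# Mahler measures
-/

set_option autoImplicit false
set_option linter.unusedSectionVars false
set_option linter.style.haveILetI false

open Finset Polynomial Module NumberField IntermediateField

namespace Pool.Agent.Q191.MV

open Pool.Agent.H388SL (lam lam_pos lam_pow lam_nonneg CInj_gen minpoly_map_eq sum_embeddings')

/-- the sum over the conjugates and the minimal polynomial -/
theorem lam_mul_degree {K : Type} [Field K] [NumberField K] (δ : K) :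
    lam δ * (minpoly ℚ δ).natDegree = finrank ℚ K *
      ((((minpoly ℚ δ).map (algebraMap ℚ ℂ)).roots.map fun z => Real.log (max 1 ‖z‖)).sum) := by
  have h1 : lam δ = (finrank (IntermediateField.adjoin ℚ {δ}) K) •
      ∑ σ : (IntermediateField.adjoin ℚ {δ}) →ₐ[ℚ] ℂ,
        Real.log (max 1 ‖σ (IntermediateField.AdjoinSimple.gen ℚ δ)‖) :=
    sum_embeddings' δ fun z => Real.log (max 1 ‖z‖)
  have h2 : (((minpoly ℚ δ).map (algebraMap ℚ ℂ)).roots.map
      fun z => Real.log (max 1 ‖z‖)).sum =
      ∑ σ : (IntermediateField.adjoin ℚ {δ}) →ₐ[ℚ] ℂ,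
        Real.log (max 1 ‖σ (IntermediateField.AdjoinSimple.gen ℚ δ)‖) := by
    have e0 : (minpoly ℚ δ).map (algebraMap ℚ ℂ) =
        ∏ τ : (IntermediateField.adjoin ℚ {δ}) →ₐ[ℚ] ℂ,
          (X - C (τ (IntermediateField.AdjoinSimple.gen ℚ δ))) := by
      have e1 := minpoly_map_eq (CInj_gen δ)
      rw [← IntermediateField.minpoly_gen ℚ δ]
      convert e1
      · rfl
      · exact Subsingleton.elim _ _
    rw [e0, Finset.prod_eq_multiset_prod]
    have e : (Multiset.map (fun τ : (IntermediateField.adjoin ℚ {δ}) →ₐ[ℚ] ℂ =>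
        X - C (τ (IntermediateField.AdjoinSimple.gen ℚ δ))) Finset.univ.val) =
        Multiset.map (fun a : ℂ => X - C a) (Multiset.map
          (fun τ : (IntermediateField.adjoin ℚ {δ}) →ₐ[ℚ] ℂ =>
            τ (IntermediateField.AdjoinSimple.gen ℚ δ)) Finset.univ.val) := by
      rw [Multiset.map_map]; rfl
    rw [e, Polynomial.roots_multiset_prod_X_sub_C, Multiset.map_map]
    rfl
  have h3 : (minpoly ℚ δ).natDegree = finrank ℚ (IntermediateField.adjoin ℚ {δ}) :=
    (IntermediateField.adjoin.finrank (Algebra.IsIntegral.isIntegral δ)).symm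
  have h4 : finrank ℚ (IntermediateField.adjoin ℚ {δ}) *
      finrank (IntermediateField.adjoin ℚ {δ}) K = finrank ℚ K :=
    Module.finrank_mul_finrank ℚ _ K
  rw [h1, h2, h3, ← h4, nsmul_eq_mul]
  push_cast
  ring

/-- the logarithm of the Mahler measure of a monic polynomial -/
theorem log_mahler_monic {g : ℤ[X]} (hg : g.Monic) :
    Real.log (g.map (Int.castRingHom ℂ)).mahlerMeasure =
      ((g.map (Int.castRingHom ℂ)).roots.map fun z => Real.log (max 1 ‖z‖)).sum := by
  have hm : (g.map (Int.castRingHom ℂ)).Monic := hg.map _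
  rw [Polynomial.mahlerMeasure_eq_leadingCoeff_mul_prod_roots, hm.leadingCoeff, norm_one, one_mul]
  generalize (g.map (Int.castRingHom ℂ)).roots = s
  induction s using Multiset.induction_on with
  | empty => simp
  | cons a s ih =>
    rw [Multiset.map_cons, Multiset.prod_cons, Multiset.map_cons, Multiset.sum_cons, ← ih,
      Real.log_mul]
    · exact (lt_of_lt_of_le one_pos (le_max_left _ _)).ne'
    · refine Multiset.prod_ne_zero ?_
      intro h
      obtain ⟨z, -, hz⟩ := Multiset.mem_map.1 h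
      have : (0 : ℝ) < max 1 ‖z‖ := lt_of_lt_of_le one_pos (le_max_left _ _)
      exact this.ne' hz

/-- **The relative Lehmer inequality.** -/
theorem rel_lehmer (α : ℂ) (hint : IsIntegral ℤ α) (hα0 : α ≠ 0)
    (hroot : ∀ m : ℕ, 0 < m → α ^ m ≠ 1) (F : IntermediateField ℚ ℂ) [NumberField F] :
    ∃ (L : Type) (_ : Field L) (_ : NumberField L) (_ : Algebra F L) (x : L), x ≠ 0 ∧
      IsIntegral ℤ x ∧ (∀ m : ℕ, 0 < m → x ^ m ≠ 1) ∧
      finrank F L = (minpoly F α).natDegree ∧
      lam x * (minpoly ℚ α).natDegree = finrank ℚ F * (minpoly F α).natDegree *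
        Real.log ((minpoly ℤ α).map (Int.castRingHom ℂ)).mahlerMeasure := by
  have hF : IsIntegral F α := hint.tower_top
  have hQ : IsIntegral ℚ α := hint.tower_top
  haveI : FiniteDimensional F F⟮α⟯ := IntermediateField.adjoin.finiteDimensional hF
  haveI : CharZero F⟮α⟯ := charZero_of_injective_algebraMap (algebraMap F F⟮α⟯).injective
  haveI : NumberField F⟮α⟯ := NumberField.of_module_finite F F⟮α⟯
  let x : F⟮α⟯ := IntermediateField.AdjoinSimple.gen F α
  have hx : (algebraMap F⟮α⟯ ℂ) x = α := IntermediateField.AdjoinSimple.algebraMap_gen F α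
  have hinj := (algebraMap F⟮α⟯ ℂ).injective
  refine ⟨F⟮α⟯, inferInstance, inferInstance, inferInstance, x, ?_, ?_, ?_, ?_, ?_⟩
  · intro h
    apply hα0
    rw [← hx, h, map_zero]
  · exact (isIntegral_algebraMap_iff hinj).1 (by rw [hx]; exact hint)
  · intro m hm h
    apply hroot m hm
    rw [← hx, ← map_pow, h, map_one]
  · exact IntermediateField.adjoin.finrank hF
  · have h1 := lam_mul_degree x
    have h2 : minpoly ℚ x = minpoly ℚ α := by
      have := minpoly.algebraMap_eq (A := ℚ) hinj x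
      rw [hx] at this
      exact this.symm
    have h3 : (minpoly ℚ α).map (algebraMap ℚ ℂ) = (minpoly ℤ α).map (Int.castRingHom ℂ) := by
      rw [minpoly.isIntegrallyClosed_eq_field_fractions' ℚ hint, Polynomial.map_map]
      rfl
    have h4 : finrank ℚ F * finrank F F⟮α⟯ = finrank ℚ F⟮α⟯ := Module.finrank_mul_finrank ℚ F F⟮α⟯
    have h5 : finrank F F⟮α⟯ = (minpoly F α).natDegree := IntermediateField.adjoin.finrank hF
    rw [h2, h3, ← log_mahler_monic (minpoly.monic hint), ← h4, h5] at h1
    push_cast at h1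
    exact h1

/-- small measure implies integrality, and comparison with the minimal polynomial -/
theorem int_of_mahler {f : ℤ[X]} (hf : f ≠ 0) {α : ℂ} (hα : aeval α f = 0)
    (hM : (f.map (Int.castRingHom ℂ)).mahlerMeasure < 2) :
    IsIntegral ℤ α ∧ ((minpoly ℤ α).map (Int.castRingHom ℂ)).mahlerMeasure ≤
      (f.map (Int.castRingHom ℂ)).mahlerMeasure := by
  have hlc : |(f.leadingCoeff : ℝ)| < 2 := by
    have h1 := Polynomial.leadingCoeff_le_mahlerMeasure (f.map (Int.castRingHom ℂ))
    have h2 : (f.map (Int.castRingHom ℂ)).leadingCoeff = (f.leadingCoeff : ℂ) := by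
      rw [leadingCoeff_map_of_injective (RingHom.injective_int _)]
      rfl
    rw [h2, Complex.norm_intCast] at h1
    exact lt_of_le_of_lt h1 hM
  have hlc2 : f.leadingCoeff = 1 ∨ f.leadingCoeff = -1 := by
    have h1 : |f.leadingCoeff| < 2 := by exact_mod_cast hlc
    have h2 : f.leadingCoeff ≠ 0 := leadingCoeff_ne_zero.2 hf
    have h3 : 0 < |f.leadingCoeff| := abs_pos.2 h2
    have h4 : |f.leadingCoeff| = 1 := by omega
    exact eq_or_eq_neg_of_abs_eq h4
  have hint : IsIntegral ℤ α := by
    rcases hlc2 with h | h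
    · exact ⟨f, h, hα⟩
    · refine ⟨-f, ?_, ?_⟩
      · rw [Monic, leadingCoeff_neg, h, neg_neg]
      · rw [← aeval_def, map_neg, hα, neg_zero]
  refine ⟨hint, ?_⟩
  obtain ⟨h, hh⟩ := minpoly.isIntegrallyClosed_dvd hint hα
  have hh0 : h ≠ 0 := by
    rintro rfl
    rw [mul_zero] at hh
    exact hf hh
  rw [hh, Polynomial.map_mul, mahlerMeasure_mul]
  exact le_mul_of_one_le_right (Polynomial.mahlerMeasure_nonneg _)
    (one_le_mahlerMeasure_of_ne_zero hh0)

end Pool.Agent.Q191.MV
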