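import Mathlib
import Pool.Agent.Q191.MV.Leh

/-!
# Infinite base fields
-/

set_option autoImplicit false
set_option linter.unusedSectionVars false
set_option linter.style.haveILetI false

open Finset Polynomial Module NumberField IntermediateField

namespace Pool.Agent.Q191.MV

open Pool.Agent.H388SL (lam lam_pos lam_pow lam_nonneg)

/-- the degree over a subfield which contains the coefficients of the minimal polynomial -/
theorem degree_eq (L F : IntermediateField ℚ ℂ) (hFL : F ≤ L) (α : ℂ) (hα : IsIntegral F α)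
    (hF : ∀ i, ((minpoly L α).coeff i : ℂ) ∈ F) :
    (minpoly F α).natDegree = (minpoly L α).natDegree := by
  have hαL : IsIntegral L α := by
    obtain ⟨P, hP, h0⟩ := hα
    refine ⟨P.map (IntermediateField.inclusion hFL).toRingHom, hP.map _, ?_⟩
    rw [eval₂_map]
    exact h0
  -- the minimal polynomial over `L` as a polynomial over `F`
  have hlift : (minpoly L α).map (algebraMap L ℂ) ∈ Polynomial.lifts (algebraMap F ℂ) := by
    rw [Polynomial.lifts_iff_coeff_lifts]
    intro i
    rw [coeff_map]
    exact ⟨⟨_, hF i⟩, rfl⟩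
  obtain ⟨P, hP, hdeg, hmon⟩ := Polynomial.lifts_and_natDegree_eq_and_monic hlift
    ((minpoly.monic hαL).map _)
  have hP0 : aeval α P = 0 := by
    rw [aeval_def, ← eval_map, hP, eval_map, ← aeval_def]
    exact minpoly.aeval L α
  have h1 : (minpoly F α).natDegree ≤ (minpoly L α).natDegree := by
    have h2 := natDegree_le_of_dvd (minpoly.dvd F α hP0) hmon.ne_zero
    rwa [hdeg, natDegree_map] at h2
  have h2 : (minpoly L α).natDegree ≤ (minpoly F α).natDegree := by
    have h3 : aeval α ((minpoly F α).map (IntermediateField.inclusion hFL).toRingHom) = 0 := by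
      rw [aeval_def, eval₂_map]
      exact minpoly.aeval F α
    have h4 := natDegree_le_of_dvd (minpoly.dvd L α h3) ((minpoly.monic hα).map _).ne_zero
    rwa [(minpoly.monic hα).natDegree_map] at h4
  omega

/-- comparison with the minimal polynomial -/
theorem mahler_min_le {f : ℤ[X]} (hf : f ≠ 0) {α : ℂ} (hα : aeval α f = 0) (hint : IsIntegral ℤ α) :
    ((minpoly ℤ α).map (Int.castRingHom ℂ)).mahlerMeasure ≤
      (f.map (Int.castRingHom ℂ)).mahlerMeasure := by
  obtain ⟨h, hh⟩ := minpoly.isIntegrallyClosed_dvd hint hα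
  have hh0 : h ≠ 0 := by
    rintro rfl
    rw [mul_zero] at hh
    exact hf hh
  rw [hh, Polynomial.map_mul, mahlerMeasure_mul]
  exact le_mul_of_one_le_right (Polynomial.mahlerMeasure_nonneg _)
    (one_le_mahlerMeasure_of_ne_zero hh0)

/-- the relative inequality for a polynomial -/
theorem lehmer_closed {f : ℤ[X]} (hf : f ≠ 0) {α : ℂ} (hα : aeval α f = 0) (hα0 : α ≠ 0)
    (hroot : ∀ m : ℕ, 0 < m → α ^ m ≠ 1) (hint : IsIntegral ℤ α)
    (F : IntermediateField ℚ ℂ) [NumberField F] {q B : ℕ} (hF : FrobeniusAt F q B) :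
    ((minpoly ℚ α).natDegree : ℝ) ≤ loss q B (minpoly F α).natDegree * (minpoly F α).natDegree *
      Real.log (f.map (Int.castRingHom ℂ)).mahlerMeasure := by
  have hle := mahler_min_le hf hα hint
  obtain ⟨L, _, _, _, x, hx0, hxi, hxr, hdeg, hlam⟩ := rel_lehmer α hint hα0 hroot F
  have h1 := lower_at hF x hx0 hxi hxr
  rw [hdeg] at h1
  set D := (minpoly F α).natDegree with hD
  set d := (minpoly ℚ α).natDegree with hd
  have hQ : IsIntegral ℚ α := hint.tower_top
  have hd0 : (0 : ℝ) < d := by exact_mod_cast minpoly.natDegree_pos hQ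
  have hf0 : (0 : ℝ) < finrank ℚ F := by exact_mod_cast (finrank_pos : 0 < finrank ℚ F)
  have hl := loss_pos q B D (by have := hF.lt; omega)
  have hg : 1 ≤ ((minpoly ℤ α).map (Int.castRingHom ℂ)).mahlerMeasure :=
    one_le_mahlerMeasure_of_ne_zero (minpoly.ne_zero hint)
  have hlog : Real.log ((minpoly ℤ α).map (Int.castRingHom ℂ)).mahlerMeasure ≤
      Real.log (f.map (Int.castRingHom ℂ)).mahlerMeasure := Real.log_le_log (by linarith) hle
  have h2 : (finrank ℚ F : ℝ) * d ≤ finrank ℚ F * (loss q B D * D *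
      Real.log ((minpoly ℤ α).map (Int.castRingHom ℂ)).mahlerMeasure) := by
    calc (finrank ℚ F : ℝ) * d ≤ (loss q B D * lam x) * d :=
          mul_le_mul_of_nonneg_right h1 hd0.le
      _ = loss q B D * (lam x * d) := by ring
      _ = _ := by
          rw [hlam]
          ring
  have h3 := le_of_mul_le_mul_left h2 hf0
  refine h3.trans (mul_le_mul_of_nonneg_left hlog ?_)
  exact mul_nonneg hl.le (Nat.cast_nonneg _)

end Pool.Agent.Q191.MV
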