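import Mathlib

/-!
# The numerical condition for the prime number 2
-/

set_option autoImplicit false

open Finset

namespace Pool.Agent.Q191.MV

theorem log_118 : Real.log 1.18 ≤ 16 / 67 * Real.log 2 := by
  have h1 : (1.18 : ℝ) ^ 67 ≤ 2 ^ 16 := by norm_num
  have h2 := Real.log_le_log (by positivity) h1
  rw [Real.log_pow, Real.log_pow] at h2
  push_cast at h2
  linarith

theorem sum_two (J : ℕ) : ∑ j ∈ range (J + 1), (2 : ℝ) ^ j = 2 * 2 ^ J - 1 := by
  induction J with
  | zero => norm_num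
  | succ J ih =>
    rw [sum_range_succ, ih, pow_succ]
    ring

/-- the condition, in terms of an upper bound for `log f` -/
theorem num_aux {J : ℕ} {f D x : ℝ} (hf : 0 < f) (hD0 : 0 < D) (hD : D ≤ f ^ 2)
    (hx : x ≤ Real.log 1.18) {c : ℝ}
    (hc : Real.log (J + 1) + 2 * Real.log f ≤ c)
    (h : 2 * (2 * 2 ^ J - 1) * (16 / 67 * Real.log 2) / f + c < Real.log 2 * (J * (J + 2) / 3)) :
    2 * (∑ j ∈ range (J + 1), (2 : ℝ) ^ j) * (x / f) + Real.log (D * (J + 1)) <
      Real.log 2 * (J * (J - 1) / 3 + J) := by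
  have hL : 0 < Real.log 2 := Real.log_pos (by norm_num)
  have hJ : (0 : ℝ) < (J : ℝ) + 1 := by positivity
  have h1 : Real.log (D * (J + 1)) ≤ c := by
    have h2 : Real.log (D * (J + 1)) ≤ Real.log (f ^ 2 * (J + 1)) :=
      Real.log_le_log (by positivity) (mul_le_mul_of_nonneg_right hD hJ.le)
    have h3 : Real.log (f ^ 2 * (J + 1)) = 2 * Real.log f + Real.log (J + 1) := by
      rw [Real.log_mul (by positivity) hJ.ne', Real.log_pow]
      push_cast
      ring
    linarith
  have h3 : x / f ≤ 16 / 67 * Real.log 2 / f :=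
    div_le_div_of_nonneg_right (hx.trans log_118) hf.le
  have h4 : 0 < 16 / 67 * Real.log 2 / f := by positivity
  have h5 : 0 < (2 : ℝ) ^ J := by positivity
  have h6 : 1 ≤ (2 : ℝ) ^ J := one_le_pow₀ (by norm_num)
  rw [sum_two]
  have h7 : 2 * (2 * 2 ^ J - 1) * (x / f) ≤ 2 * (2 * 2 ^ J - 1) * (16 / 67 * Real.log 2 / f) :=
    mul_le_mul_of_nonneg_left h3 (by linarith)
  have h8 : 2 * (2 * 2 ^ J - 1) * (16 / 67 * Real.log 2) / f =
      2 * (2 * 2 ^ J - 1) * (16 / 67 * Real.log 2 / f) := by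
    ring
  rw [h8] at h
  have h9 : (J : ℝ) * (J - 1) / 3 + J = J * (J + 2) / 3 := by ring
  rw [h9]
  linarith

theorem log_le_add {a b : ℝ} (ha : 0 < a) (hb : 0 < b) : Real.log b ≤ Real.log a + (b / a - 1) := by
  have h1 := Real.log_le_sub_one_of_pos (div_pos hb ha)
  rw [Real.log_div hb.ne' ha.ne'] at h1
  linarith

/-- the condition holds for `f ≥ 9` and `D ≤ f ^ 2` -/
theorem num_two (f : ℕ) (hf : 9 ≤ f) (D x : ℝ) (hD0 : 0 < D) (hD : D ≤ (f : ℝ) ^ 2)
    (hx : x ≤ Real.log 1.18) : ∃ J : ℕ,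
    2 * (∑ j ∈ range (J + 1), (2 : ℝ) ^ j) * (x / f) + Real.log (D * (J + 1)) <
      Real.log 2 * (J * (J - 1) / 3 + J) := by
  have hL1 : (0.6931471803 : ℝ) < Real.log 2 := Real.log_two_gt_d9
  have hL2 : Real.log 2 < (0.6931471808 : ℝ) := Real.log_two_lt_d9
  have hf9 : (9 : ℝ) ≤ f := by exact_mod_cast hf
  have hf0 : (0 : ℝ) < f := by linarith
  rcases Nat.lt_or_ge f 32 with h32 | h32
  · refine ⟨6, ?_⟩
    rcases Nat.lt_or_ge f 16 with h16 | h16
    · have h15 : (f : ℝ) ≤ 15 := by exact_mod_cast (by omega : f ≤ 15)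
      have e1 : Real.log 7 + 2 * Real.log 9 ≤ 37 / 4 * Real.log 2 := by
        have h1 : ((7 : ℝ) * 9 ^ 2) ^ 4 ≤ 2 ^ 37 := by norm_num
        have h2 := Real.log_le_log (by positivity) h1
        rw [Real.log_pow, Real.log_mul (by norm_num) (by norm_num), Real.log_pow,
          Real.log_pow] at h2
        push_cast at h2
        linarith
      have e2 := log_le_add (show (0 : ℝ) < 9 by norm_num) hf0
      refine num_aux hf0 hD0 hD hx (c := 37 / 4 * Real.log 2 + 2 * (f / 9 - 1)) ?_ ?_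
      · norm_num
        linarith
      · rw [← sub_pos]
        have e3 : Real.log 2 * ((6 : ℕ) * ((6 : ℕ) + 2) / 3) -
            (2 * (2 * 2 ^ 6 - 1) * (16 / 67 * Real.log 2) / f +
              (37 / 4 * Real.log 2 + 2 * (f / 9 - 1))) =
            (27 / 4 * Real.log 2 * f - 4064 / 67 * Real.log 2 - 2 / 9 * f ^ 2 + 2 * f) / f := by
          field_simp
          ring
        rw [e3]
        refine div_pos ?_ hf0
        have e4 := mul_nonneg (sub_nonneg.2 hf9) (sub_nonneg.2 h15)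
        have e5 := mul_nonneg (sub_nonneg.2 hL1.le) (sub_nonneg.2 hf9)
        nlinarith
    · have h31 : (f : ℝ) ≤ 31 := by exact_mod_cast (by omega : f ≤ 31)
      have h16' : (16 : ℝ) ≤ f := by exact_mod_cast h16
      have e1 : Real.log 7 + 2 * Real.log 16 ≤ 11 * Real.log 2 := by
        have h1 : ((7 : ℝ) * 16 ^ 2) ≤ 2 ^ 11 := by norm_num
        have h2 := Real.log_le_log (by positivity) h1
        rw [Real.log_mul (by norm_num) (by norm_num), Real.log_pow, Real.log_pow] at h2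
        push_cast at h2
        linarith
      have e2 := log_le_add (show (0 : ℝ) < 16 by norm_num) hf0
      refine num_aux hf0 hD0 hD hx (c := 11 * Real.log 2 + 2 * (f / 16 - 1)) ?_ ?_
      · norm_num
        linarith
      · rw [← sub_pos]
        have e3 : Real.log 2 * ((6 : ℕ) * ((6 : ℕ) + 2) / 3) -
            (2 * (2 * 2 ^ 6 - 1) * (16 / 67 * Real.log 2) / f +
              (11 * Real.log 2 + 2 * (f / 16 - 1))) =
            (5 * Real.log 2 * f - 4064 / 67 * Real.log 2 - 1 / 8 * f ^ 2 + 2 * f) / f := by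
          field_simp
          ring
        rw [e3]
        refine div_pos ?_ hf0
        have e4 := mul_nonneg (sub_nonneg.2 h16') (sub_nonneg.2 h31)
        have e5 := mul_nonneg (sub_nonneg.2 hL1.le) (sub_nonneg.2 h16')
        nlinarith
  · set k := Nat.log 2 f with hk
    have hk5 : 5 ≤ k := by
      have : Nat.log 2 32 ≤ Nat.log 2 f := Nat.log_mono_right h32
      have e : Nat.log 2 32 = 5 := by decide
      omega
    have h1 : 2 ^ k ≤ f := Nat.pow_log_le_self 2 (by omega)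
    have h2 : f < 2 ^ (k + 1) := Nat.lt_pow_succ_log_self (by norm_num) f
    have h1' : (2 : ℝ) ^ k ≤ f := by exact_mod_cast h1
    have h2' : (f : ℝ) ≤ 2 ^ (k + 1) := by exact_mod_cast h2.le
    have hkR : (5 : ℝ) ≤ k := by exact_mod_cast hk5
    have h3 : Real.log f ≤ (k + 1) * Real.log 2 := by
      have := Real.log_le_log hf0 h2'
      rw [Real.log_pow] at this
      push_cast at this
      exact this
    have h4 : Real.log ((k : ℝ) + 3) ≤ 3 * Real.log 2 + ((k + 3) / 8 - 1) := by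
      have e1 := log_le_add (show (0 : ℝ) < 8 by norm_num) (show (0 : ℝ) < (k : ℝ) + 3 by positivity)
      have e2 : Real.log 8 = 3 * Real.log 2 := by
        rw [show (8 : ℝ) = 2 ^ 3 by norm_num, Real.log_pow]
        norm_num
      linarith
    refine ⟨k + 2, num_aux hf0 hD0 hD hx
      (c := 3 * Real.log 2 + ((k + 3) / 8 - 1) + 2 * ((k + 1) * Real.log 2)) ?_ ?_⟩
    · push_cast
      have : (k : ℝ) + 2 + 1 = k + 3 := by ring
      rw [this]
      linarith
    · have h5 : 2 * (2 * 2 ^ (k + 2) - 1) * (16 / 67 * Real.log 2) / f ≤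
          16 * (16 / 67 * Real.log 2) := by
        rw [div_le_iff₀ hf0, pow_add]
        have : 0 < 16 / 67 * Real.log 2 := by positivity
        nlinarith
      push_cast
      have e4 := mul_nonneg (by linarith : (0 : ℝ) ≤ Real.log 2)
        (mul_nonneg (by linarith : (0 : ℝ) ≤ k) (sub_nonneg.2 hkR))
      have e5 := mul_nonneg (sub_nonneg.2 hL1.le) (sub_nonneg.2 hkR)
      nlinarith

/-- the condition holds if `D ≤ 2 ^ (J (J + 2) / 3 - 4) / (J + 1)`, `2 ^ J ≤ 4 f` -/
theorem num_three (f D J : ℕ) (hf : 0 < f) (hD : 0 < D) (x : ℝ) (hx0 : 0 ≤ x)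
    (hx : x ≤ Real.log 1.18) (hJ : 2 ^ J ≤ 4 * f)
    (h : (16 * D * (J + 1)) ^ 3 ≤ 2 ^ (J * (J + 2))) :
    2 * (∑ j ∈ range (J + 1), (2 : ℝ) ^ j) * (x / f) + Real.log (D * (J + 1)) <
      Real.log 2 * (J * (J - 1) / 3 + J) := by
  have hL : 0 < Real.log 2 := Real.log_pos (by norm_num)
  have hf0 : (0 : ℝ) < f := by exact_mod_cast hf
  have hD0 : (0 : ℝ) < D := by exact_mod_cast hD
  have h1 : ((16 : ℝ) * (D * (J + 1))) ^ 3 ≤ 2 ^ (J * (J + 2)) := by
    have h2 : ((16 : ℝ) * D * (J + 1)) ^ 3 ≤ 2 ^ (J * (J + 2)) := by exact_mod_cast h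
    rwa [mul_assoc] at h2
  have h2 := Real.log_le_log (by positivity) h1
  rw [Real.log_pow, Real.log_pow, Real.log_mul (by norm_num) (by positivity),
    show (16 : ℝ) = 2 ^ 4 by norm_num, Real.log_pow] at h2
  push_cast at h2
  rw [sum_two]
  have h3 : (2 : ℝ) ^ J ≤ 4 * f := by exact_mod_cast hJ
  have h4 : 2 * (2 * 2 ^ J - 1) * (x / f) ≤ 16 * x := by
    rw [mul_div_assoc', div_le_iff₀ hf0]
    nlinarith
  have h5 := log_118
  have h6 : (J : ℝ) * (J - 1) / 3 + J = J * (J + 2) / 3 := by ring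
  rw [h6]
  nlinarith

end Pool.Agent.Q191.MV
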