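import Mathlib
import Pool.Agent.Q191.MV.Leh
import Pool.Agent.W738.SAL.E
import Pool.Agent.H196R3.ParryB

/-!
# Perron numbers with infinitely many Parry powers
-/

set_option autoImplicit false
set_option linter.unusedSectionVars false
set_option linter.style.haveILetI false

open Finset Polynomial Module NumberField IntermediateField

namespace Pool.Agent.Q191.MV

open Pool.Agent.H388SL (lam lam_pos lam_pow lam_nonneg)
open Pool.Agent.W738.SAL (IsPerron ParryPowers one_of_inf)

/-- the condition with `q = p ^ l` -/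
def FrobAt (F : Type) [Field F] [NumberField F] (p l B : ℕ) : Prop :=
  ∃ (τ : F ≃+* F) (T : Finset (Ideal (𝓞 F))), p.Prime ∧ 0 < l ∧
    (∀ P ∈ T, P.IsPrime ∧ (p : 𝓞 F) ∈ P ∧
      ∀ x : 𝓞 F, x ^ p ^ l - RingOfIntegers.mapRingHom (τ : F →+* F) x ∈ P) ∧
    p ^ finrank ℚ F ≤ (∏ P ∈ T, Ideal.absNorm P) ^ B

theorem raw_alg (α : ℂ) (hint : IsIntegral ℤ α) (hα0 : α ≠ 0)
    (hroot : ∀ m : ℕ, 0 < m → α ^ m ≠ 1) (F : IntermediateField ℚ ℂ) [NumberField F]
    {p l B : ℕ} (hF : FrobAt F p l B) (J : ℕ) :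
    Real.log p * (l * (J * (J - 1) / 3) + J) ≤
      B * (2 * (∑ j ∈ range (J + 1), ((p : ℝ) ^ l) ^ j) *
        ((minpoly F α).natDegree / (minpoly ℚ α).natDegree *
          Real.log ((minpoly ℤ α).map (Int.castRingHom ℂ)).mahlerMeasure) +
        Real.log ((minpoly F α).natDegree * (J + 1))) := by
  obtain ⟨τ, T, hp, hl0, hT, hB⟩ := hF
  obtain ⟨L, _, _, _, x, hx0, hxi, hxr, hdeg, hlam⟩ := rel_lehmer α hint hα0 hroot F
  have h1 := raw' (F := F) x hx0 hxi hxr p hp T (fun P hP => ⟨(hT P hP).1, (hT P hP).2.1⟩) l hl0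
    τ (fun P hP => (hT P hP).2.2) B hB J
  rw [hdeg] at h1
  have hQ : IsIntegral ℚ α := hint.tower_top
  have hd0 : (0 : ℝ) < (minpoly ℚ α).natDegree := by exact_mod_cast minpoly.natDegree_pos hQ
  have hf0 : (0 : ℝ) < finrank ℚ F := by exact_mod_cast (finrank_pos : 0 < finrank ℚ F)
  have hlam' : lam x = finrank ℚ F * ((minpoly F α).natDegree / (minpoly ℚ α).natDegree *
      Real.log ((minpoly ℤ α).map (Int.castRingHom ℂ)).mahlerMeasure) := by
    have h2 : lam x = (lam x * (minpoly ℚ α).natDegree) / (minpoly ℚ α).natDegree := by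
      field_simp
    rw [h2, hlam]
    field_simp
  rw [hlam'] at h1
  push_cast at h1
  refine le_of_mul_le_mul_left (h1.trans (le_of_eq ?_)) hf0
  ring

/-- degrees, if `F ⊆ ℚ(α)` -/
theorem degree_sub (α : ℂ) (hα : IsIntegral ℚ α) (F : IntermediateField ℚ ℂ) [NumberField F]
    (hF : F ≤ IntermediateField.adjoin ℚ {α}) :
    finrank ℚ F * (minpoly F α).natDegree = (minpoly ℚ α).natDegree := by
  have h1 : IsIntegral F α := hα.tower_top
  have h2 : (IntermediateField.adjoin F {α}).restrictScalars ℚ =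
      IntermediateField.adjoin ℚ {α} := by
    apply le_antisymm
    · intro x hx
      have h3 : IntermediateField.adjoin F {α} ≤
          (IntermediateField.extendScalars hF) := by
        rw [IntermediateField.adjoin_simple_le_iff]
        exact IntermediateField.mem_adjoin_simple_self ℚ α
      exact h3 hx
    · rw [IntermediateField.adjoin_simple_le_iff]
      exact IntermediateField.mem_adjoin_simple_self F α
  rw [← IntermediateField.adjoin.finrank h1, ← IntermediateField.adjoin.finrank hα, ← h2]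
  exact Module.finrank_mul_finrank ℚ F (IntermediateField.adjoin F {α})

/-- **Perron numbers.** -/
theorem perron {β : ℝ} (hP : IsPerron β) (F : IntermediateField ℚ ℂ) [NumberField F]
    {p l B : ℕ} (hF : FrobAt F p l B) (J : ℕ)
    (h : B * (2 * (∑ j ∈ range (J + 1), ((p : ℝ) ^ l) ^ j) *
        ((minpoly F (β : ℂ)).natDegree / (minpoly ℚ (β : ℂ)).natDegree * Real.log β) +
        Real.log ((minpoly F (β : ℂ)).natDegree * (J + 1))) <
      Real.log p * (l * (J * (J - 1) / 3) + J)) : (ParryPowers β).Finite := by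
  by_contra hinf
  have hone : ∀ z : ℂ, aeval z (minpoly ℤ β) = 0 → z ≠ (β : ℂ) → ‖z‖ ≤ 1 :=
    fun z hz hne => one_of_inf hP hinf hz hne
  have hM := Pool.Agent.H196R3.Parry.mahler_eq hP.1 hP.2.1 hone
  have hmin : minpoly ℤ (β : ℂ) = minpoly ℤ β :=
    minpoly.algebraMap_eq (A := ℤ) (algebraMap ℝ ℂ).injective β
  have hβ0 : (β : ℂ) ≠ 0 := by
    have := hP.1
    exact_mod_cast (by linarith : β ≠ 0)
  have hroot : ∀ m : ℕ, 0 < m → (β : ℂ) ^ m ≠ 1 := by
    intro m hm h1
    have h2 : β ^ m = 1 := by exact_mod_cast h1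
    exact absurd h2 (one_lt_pow₀ hP.1 hm.ne').ne'
  have hint : IsIntegral ℤ (β : ℂ) := hP.2.1.map (algebraMap ℝ ℂ).toIntAlgHom
  have h1 := raw_alg (β : ℂ) hint hβ0 hroot F hF J
  have hM' : ((minpoly ℤ β).map (Int.castRingHom ℂ)).mahlerMeasure = β := hM
  rw [hmin, hM'] at h1
  exact absurd h1 (not_le.2 h)

end Pool.Agent.Q191.MV
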