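import Mathlib
import Pool.Agent.Q191.MV.Inf

/-!
# Number fields with many embeddings in `ℚ_p`
-/

set_option autoImplicit false
set_option linter.style.haveILetI false
set_option linter.unusedSectionVars false

open Finset Module NumberField

namespace Pool.Agent.Q191.MV

variable {F : Type} [Field F] [NumberField F] (p : ℕ) [Fact p.Prime]

omit [NumberField F] in
/-- integers are mapped to integers -/
theorem norm_le_one (φ : F →+* ℚ_[p]) (x : 𝓞 F) : ‖φ (x : F)‖ ≤ 1 := by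
  obtain ⟨P, hP, h0⟩ := x.isIntegral_coe
  have h1 : IsIntegral ℤ (φ (x : F)) := by
    refine ⟨P, hP, ?_⟩
    have h2 : (φ.comp (algebraMap ℤ F)) = algebraMap ℤ ℚ_[p] := RingHom.ext_int _ _
    rw [← h2, ← Polynomial.hom_eval₂, h0, map_zero]
  have h2 : IsIntegral ℤ_[p] (φ (x : F)) := h1.tower_top
  obtain ⟨y, hy⟩ := IsIntegrallyClosed.isIntegral_iff.1 h2
  rw [← hy]
  exact y.2

/-- the map of the integers into `ℤ_p` -/
noncomputable def toZp (φ : F →+* ℚ_[p]) : 𝓞 F →+* ℤ_[p] where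
  toFun x := ⟨φ (x : F), norm_le_one p φ x⟩
  map_one' := Subtype.ext (by simp)
  map_mul' x y := by
    apply Subtype.ext
    exact (φ.comp (algebraMap (𝓞 F) F)).map_mul x y
  map_zero' := Subtype.ext (by simp)
  map_add' x y := by
    apply Subtype.ext
    exact (φ.comp (algebraMap (𝓞 F) F)).map_add x y

theorem coe_toZp (φ : F →+* ℚ_[p]) (x : 𝓞 F) : ((toZp p φ x : ℤ_[p]) : ℚ_[p]) = φ (x : F) := rfl

/-- the map to `ℤ / p ^ n` -/
noncomputable def toMod (φ : F →+* ℚ_[p]) (n : ℕ) : 𝓞 F →+* ZMod (p ^ n) :=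
  (PadicInt.toZModPow n).comp (toZp p φ)

theorem toMod_surj (φ : F →+* ℚ_[p]) (n : ℕ) : Function.Surjective (toMod p φ n) := by
  intro y
  haveI : NeZero (p ^ n) := ⟨pow_ne_zero _ (Fact.out : p.Prime).ne_zero⟩
  obtain ⟨m, rfl⟩ := ZMod.natCast_zmod_surjective y
  exact ⟨(m : 𝓞 F), by simp⟩

/-- the kernel of the map to `ℤ / p ^ n` -/
noncomputable def ker (φ : F →+* ℚ_[p]) (n : ℕ) : Ideal (𝓞 F) := RingHom.ker (toMod p φ n)

theorem absNorm_ker (φ : F →+* ℚ_[p]) (n : ℕ) : Ideal.absNorm (ker p φ n) = p ^ n := by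
  have e := RingHom.quotientKerEquivOfSurjective (toMod_surj p φ n)
  have h1 : Nat.card (𝓞 F ⧸ ker p φ n) = Nat.card (ZMod (p ^ n)) := Nat.card_congr e.toEquiv
  rw [Nat.card_zmod] at h1
  rw [← h1]
  rfl

theorem mem_ker (φ : F →+* ℚ_[p]) (n : ℕ) (x : 𝓞 F) :
    x ∈ ker p φ n ↔ (p : ℤ_[p]) ^ n ∣ toZp p φ x := by
  rw [ker, RingHom.mem_ker, toMod, RingHom.comp_apply, ← RingHom.mem_ker,
    PadicInt.ker_toZModPow, Ideal.mem_span_singleton]

theorem ker_prime (φ : F →+* ℚ_[p]) : (ker p φ 1).IsPrime := by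
  haveI : Fact (p ^ 1).Prime := ⟨by rw [pow_one]; exact Fact.out⟩
  exact RingHom.ker_isPrime _

theorem ker_pow (φ : F →+* ℚ_[p]) (n : ℕ) : ker p φ 1 ^ n = ker p φ n := by
  have hle : ker p φ 1 ^ n ≤ ker p φ n := by
    induction n with
    | zero =>
      intro x _
      rw [mem_ker, pow_zero]
      exact one_dvd _
    | succ n ih =>
      rw [pow_succ, Ideal.mul_le]
      intro x hx y hy
      have h1 := (mem_ker p φ n x).1 (ih hx)
      have h2 := (mem_ker p φ 1 y).1 hy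
      rw [mem_ker, map_mul, pow_succ]
      rw [pow_one] at h2
      exact mul_dvd_mul h1 h2
  obtain ⟨J, hJ⟩ := Ideal.dvd_iff_le.2 hle
  have h1 : Ideal.absNorm (ker p φ 1 ^ n) = p ^ n := by
    rw [map_pow, absNorm_ker, pow_one]
  have h2 : Ideal.absNorm J = 1 := by
    rw [hJ, map_mul, absNorm_ker] at h1
    have h3 : 0 < p ^ n := pow_pos (Fact.out : p.Prime).pos _
    exact Nat.eq_of_mul_eq_mul_left h3 (by rw [h1, mul_one])
  rw [Ideal.absNorm_eq_one_iff] at h2
  rw [hJ, h2, Ideal.mul_top]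

/-- an embedding is determined by its prime ideal -/
theorem ker_inj : Function.Injective fun φ : F →+* ℚ_[p] => ker p φ 1 := by
  intro φ ψ h
  have hn : ∀ n, ker p φ n = ker p ψ n := by
    intro n
    rw [← ker_pow p φ n, ← ker_pow p ψ n]
    exact congrArg (fun I => I ^ n) h
  have h1 : ∀ x : 𝓞 F, toZp p φ x = toZp p ψ x := by
    intro x
    rw [← PadicInt.ext_of_toZModPow]
    intro n
    haveI : NeZero (p ^ n) := ⟨pow_ne_zero _ (Fact.out : p.Prime).ne_zero⟩
    obtain ⟨m, hm⟩ := ZMod.natCast_zmod_surjective (toMod p φ n x)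
    have h2 : x - (m : 𝓞 F) ∈ ker p φ n := by
      rw [ker, RingHom.mem_ker, map_sub, map_natCast, hm, sub_self]
    rw [hn, ker, RingHom.mem_ker, map_sub, map_natCast, sub_eq_zero] at h2
    change toMod p φ n x = toMod p ψ n x
    rw [← hm, h2]
  apply RingHom.ext
  intro z
  obtain ⟨a, b, hb, rfl⟩ := IsFractionRing.div_surjective (A := 𝓞 F) z
  have h3 : ∀ x : 𝓞 F, φ (algebraMap (𝓞 F) F x) = ψ (algebraMap (𝓞 F) F x) := by
    intro x
    have := congrArg (fun t : ℤ_[p] => (t : ℚ_[p])) (h1 x)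
    exact this
  rw [map_div₀, map_div₀, h3, h3]

/-- a number field with many embeddings in `ℚ_p` -/
theorem frob_of_embeddings (B : ℕ) (h : finrank ℚ F ≤ B * Nat.card (F →+* ℚ_[p])) :
    FrobeniusAt F p B := by
  classical
  have hp : p.Prime := Fact.out
  have hfin : Finite (F →+* ℚ_[p]) := by
    have : Finite (F →ₐ[ℚ] ℚ_[p]) := inferInstance
    exact Finite.of_injective (fun φ : F →+* ℚ_[p] => φ.toRatAlgHom) fun φ ψ h => by
      ext x
      exact DFunLike.congr_fun h x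
  letI : Fintype (F →+* ℚ_[p]) := Fintype.ofFinite _
  refine ⟨p, 1, RingEquiv.refl F, Finset.univ.image fun φ : F →+* ℚ_[p] => ker p φ 1, hp,
    one_pos, (pow_one p).symm, ?_, ?_⟩
  · intro P hP
    obtain ⟨φ, -, rfl⟩ := Finset.mem_image.1 hP
    refine ⟨ker_prime p φ, ?_, fun x => ?_⟩
    · rw [mem_ker, map_natCast, pow_one]
    · have h1 : RingOfIntegers.mapRingHom ((RingEquiv.refl F : F ≃+* F) : F →+* F) x = x := by
        ext
        rfl
      rw [h1, ker, RingHom.mem_ker, map_sub, map_pow, sub_eq_zero]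
      haveI : Fact (p ^ 1).Prime := ⟨by rw [pow_one]; exact Fact.out⟩
      have h2 := ZMod.pow_card (toMod p φ 1 x)
      exact (congrArg (fun k => toMod p φ 1 x ^ k) (pow_one p).symm).trans h2
  · rw [Finset.prod_image (fun φ _ ψ _ h => ker_inj p h)]
    simp only [absNorm_ker, pow_one, Finset.prod_const, Finset.card_univ]
    rw [← pow_mul]
    refine Nat.pow_le_pow_right hp.pos ?_
    rw [Nat.card_eq_fintype_card] at h
    rw [mul_comm]
    exact h

end Pool.Agent.Q191.MV
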