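import Mathlib
import Pool.Agent.Q191.MV.Inf

/-!
# Fields in which a prime number splits completely
-/

set_option autoImplicit false
set_option linter.style.haveILetI false

open Finset Polynomial Module NumberField IntermediateField UniqueFactorizationMonoid

namespace Pool.Agent.Q191.MV

/-- a field in which `p` splits completely has the property `FrobeniusAt F p 1` -/
theorem frob_of_split (F : Type) [Field F] [NumberField F] (p : ℕ) (hp : p.Prime)
    (h : ∀ x : 𝓞 F, ∃ y : 𝓞 F, x ^ p = x + p * y) : FrobeniusAt F p 1 := by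
  classical
  have hp0 : (p : 𝓞 F) ≠ 0 := by exact_mod_cast hp.ne_zero
  have hI : (Ideal.span {(p : 𝓞 F)}) ≠ ⊥ := by
    rw [Ne, Ideal.span_singleton_eq_bot]
    exact hp0
  have hsq : Squarefree (Ideal.span {(p : 𝓞 F)}) := by
    rw [squarefree_iff_irreducible_sq_not_dvd_of_ne_zero hI]
    intro P hPirr hPd
    have hPprime : Prime P := UniqueFactorizationMonoid.irreducible_iff_prime.1 hPirr
    have hP0 : P ≠ ⊥ := hPprime.ne_zero
    have hPI : P.IsPrime := Ideal.isPrime_of_prime hPprime
    have hPd' : Ideal.span {(p : 𝓞 F)} ≤ P ^ 2 := by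
      rw [sq]
      exact Ideal.le_of_dvd hPd
    have hle : P ≤ P ^ 2 := by
      intro x hx
      obtain ⟨y, hy⟩ := h x
      have h1 : x ^ p ∈ P ^ 2 := by
        have h2 : x ^ p = x ^ 2 * x ^ (p - 2) := by
          rw [← pow_add]
          congr 1
          have := hp.two_le
          omega
        rw [h2]
        exact Ideal.mul_mem_right _ _ (Ideal.pow_mem_pow hx 2)
      have h2 : (p : 𝓞 F) * y ∈ P ^ 2 :=
        Ideal.mul_mem_right _ _ (hPd' (Ideal.mem_span_singleton_self _))
      have h3 : x = x ^ p - p * y := by rw [hy]; ring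
      rw [h3]
      exact Ideal.sub_mem _ h1 h2
    have hlt : P ^ 2 < P := by
      have := Ideal.pow_right_strictAnti P hP0 hPI.ne_top (show 1 < 2 by norm_num)
      simpa using this
    exact absurd hle (not_le_of_gt hlt)
  have hnd : (normalizedFactors (Ideal.span {(p : 𝓞 F)})).Nodup :=
    (squarefree_iff_nodup_normalizedFactors hI).1 hsq
  refine ⟨p, 1, RingEquiv.refl F, (normalizedFactors (Ideal.span {(p : 𝓞 F)})).toFinset, hp,
    one_pos, (pow_one p).symm, ?_, ?_⟩
  · intro P hP
    rw [Multiset.mem_toFinset] at hP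
    have hPp : Prime P := prime_of_normalized_factor P hP
    have hmem : (p : 𝓞 F) ∈ P :=
      (Ideal.le_of_dvd (dvd_of_mem_normalizedFactors hP)) (Ideal.mem_span_singleton_self _)
    refine ⟨Ideal.isPrime_of_prime hPp, hmem, fun x => ?_⟩
    obtain ⟨y, hy⟩ := h x
    have h1 : RingOfIntegers.mapRingHom ((RingEquiv.refl F : F ≃+* F) : F →+* F) x = x := by
      ext
      rfl
    rw [h1, hy, add_sub_cancel_left]
    exact Ideal.mul_mem_right _ _ hmem
  · rw [pow_one]
    have h1 : ∏ P ∈ (normalizedFactors (Ideal.span {(p : 𝓞 F)})).toFinset, Ideal.absNorm P =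
        Ideal.absNorm (Ideal.span {(p : 𝓞 F)}) := by
      rw [Finset.prod_eq_multiset_prod, Multiset.toFinset_val, Multiset.dedup_eq_self.2 hnd]
      conv_rhs => rw [← Ideal.prod_normalizedFactors_eq_self hI]
      exact (map_multiset_prod Ideal.absNorm _).symm
    rw [h1, Ideal.absNorm_span_natCast, RingOfIntegers.rank]

/-- a field all of whose elements `x` are algebraic, such that `(x ^ p - x) / p` is integral for all
the algebraic integers `x` -/
theorem locally_of_split (L : IntermediateField ℚ ℂ) (p : ℕ) (hp : p.Prime)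
    (h : ∀ x ∈ L, IsAlgebraic ℚ x ∧ (IsIntegral ℤ x → IsIntegral ℤ ((x ^ p - x) / p)))
    (S : Finset ℂ) (hS : (S : Set ℂ) ⊆ L) :
    ∃ (F : IntermediateField ℚ ℂ) (_ : NumberField F), (S : Set ℂ) ⊆ F ∧ F ≤ L ∧
      FrobeniusAt F p 1 := by
  have hint : ∀ x ∈ (S : Set ℂ), IsIntegral ℚ x := fun x hx =>
    ((h x (hS hx)).1).isIntegral
  have hfd : FiniteDimensional ℚ (IntermediateField.adjoin ℚ (S : Set ℂ)) :=
    IntermediateField.finiteDimensional_adjoin (S := (S : Set ℂ)) hint
  have hnf : NumberField (IntermediateField.adjoin ℚ (S : Set ℂ)) := { to_finiteDimensional := hfd }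
  have hle : IntermediateField.adjoin ℚ (S : Set ℂ) ≤ L := IntermediateField.adjoin_le_iff.2 hS
  refine ⟨IntermediateField.adjoin ℚ (S : Set ℂ), hnf, IntermediateField.subset_adjoin ℚ _, hle, ?_⟩
  refine frob_of_split _ p hp fun x => ?_
  have hx : IsIntegral ℤ ((x : IntermediateField.adjoin ℚ (S : Set ℂ)) : ℂ) := by
    have := RingOfIntegers.isIntegral_coe x
    exact this.map ((IntermediateField.adjoin ℚ (S : Set ℂ)).val.restrictScalars ℤ)
  have hy := (h _ (hle (x : IntermediateField.adjoin ℚ (S : Set ℂ)).2)).2 hx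
  have hp0 : (p : ℂ) ≠ 0 := by exact_mod_cast hp.ne_zero
  have hp0' : (p : IntermediateField.adjoin ℚ (S : Set ℂ)) ≠ 0 := by exact_mod_cast hp.ne_zero
  set y : IntermediateField.adjoin ℚ (S : Set ℂ) :=
    ((x : IntermediateField.adjoin ℚ (S : Set ℂ)) ^ p - x) / p with hydef
  have hy' : IsIntegral ℤ y := by
    have h1 : IsIntegral ℤ ((IntermediateField.adjoin ℚ (S : Set ℂ)).val y) := by
      have h2 : (IntermediateField.adjoin ℚ (S : Set ℂ)).val y =
          (((x : IntermediateField.adjoin ℚ (S : Set ℂ)) : ℂ) ^ p - x) / p := by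
        rw [hydef]
        simp
      rw [h2]
      exact hy
    exact (isIntegral_algHom_iff
      ((IntermediateField.adjoin ℚ (S : Set ℂ)).val.restrictScalars ℤ)
      (IntermediateField.adjoin ℚ (S : Set ℂ)).val.injective).1 h1
  refine ⟨⟨y, hy'⟩, ?_⟩
  ext1
  push_cast
  change (x : IntermediateField.adjoin ℚ (S : Set ℂ)) ^ p =
    (x : IntermediateField.adjoin ℚ (S : Set ℂ)) + p * y
  rw [hydef]
  field_simp
  ring

/-- **The relative inequality over infinite fields.** -/
theorem lehmer_local {f : ℤ[X]} (hf : f ≠ 0) {α : ℂ} (hα : aeval α f = 0) (hα0 : α ≠ 0)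
    (hroot : ∀ m : ℕ, 0 < m → α ^ m ≠ 1) (hint : IsIntegral ℤ α)
    (L : IntermediateField ℚ ℂ) {q B : ℕ}
    (hL : ∀ S : Finset ℂ, (S : Set ℂ) ⊆ L → ∃ (F : IntermediateField ℚ ℂ) (_ : NumberField F),
      (S : Set ℂ) ⊆ F ∧ F ≤ L ∧ FrobeniusAt F q B) :
    ((minpoly ℚ α).natDegree : ℝ) ≤ loss q B (minpoly L α).natDegree * (minpoly L α).natDegree *
      Real.log (f.map (Int.castRingHom ℂ)).mahlerMeasure := by
  classical
  obtain ⟨F, _, hSF, hFL, hF⟩ := hL ((minpoly L α).support.image fun i => ((minpoly L α).coeff i : ℂ))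
    (by
      intro z hz
      simp only [Finset.coe_image, Set.mem_image, Finset.mem_coe] at hz
      obtain ⟨i, -, rfl⟩ := hz
      exact ((minpoly L α).coeff i).2)
  have hdeg := degree_eq L F hFL α hint.tower_top (by
    intro i
    by_cases hi : i ∈ (minpoly L α).support
    · exact hSF (by
        simp only [Finset.coe_image, Set.mem_image, Finset.mem_coe]
        exact ⟨i, hi, rfl⟩)
    · rw [Polynomial.notMem_support_iff.1 hi]
      exact F.zero_mem)
  rw [← hdeg]
  exact lehmer_closed hf hα hα0 hroot hint F hF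

end Pool.Agent.Q191.MV
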